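import Pool.Agent.Run7.h691.GZ.Bil
import Pool.Agent.Run7.h691.GZ.EQ

/-!
# GZ-NS: translation between elements and sets of primes (after `Y550/XK/NS`)
-/

set_option autoImplicit false

open scoped Classical

namespace Pool.Agent.H691.GZ.NS

open Finset
open H385 (ZI nrm)
open Pool.Agent.Y699
open Pool.Agent.H304R2.EC.A1 (prim prim_mul prim_cancel prim_one prim_ne_zero)
open Pool.Agent.H691.GZ

theorem sg_one_iff (a : ZMod 2) : sg a = 1 ↔ a = 0 := by
  unfold sg
  split_ifs with h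
  · simp [h]
  · simp only [h, iff_false]
    norm_num

/-- the symbol of a product -/
theorem qr_prod {S B : Finset ZI} (hS : ∀ π ∈ S, PP π) (hB : B ⊆ S) {π : ZI} (hπ : π ∈ S)
    (hn : π ∉ B) : qr π (∏ ρ ∈ B, ρ) = 1 ↔ ∑ ρ ∈ B, qa π ρ = 0 := by
  have h1 : qr π (∏ ρ ∈ B, ρ) = ∏ ρ ∈ B, qr π ρ := by
    rw [← jac_prime (hS π hπ), jac_prod (hS π hπ).ne]
    exact prod_congr rfl fun ρ _ => jac_prime (hS π hπ) ρ
  have h2 : ((∏ ρ ∈ B, qr π ρ : ℤ) : ℝ) = sg (∑ ρ ∈ B, qa π ρ) := by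
    rw [EQ.sg_sum]
    push_cast
    refine prod_congr rfl fun ρ hρ => (sg_qa fun hd => ?_).symm
    have := (hS π hπ).eq_of_dvd (hS ρ (hB hρ)) hd
    subst this
    exact hn hρ
  rw [h1, ← sg_one_iff, ← h2]
  norm_cast

theorem gd_of_ker {D : ZI} (hD : PS D) (h : ∀ d d' : ZI, prim d → prim d' → D = d * d' →
    (∀ π ∈ PD d, qr π d' = 1) → (∀ π ∈ PD d', qr π d = 1) → d = 1 ∨ d' = 1) : Gd (PD D) := by
  intro v hv
  have hS : ∀ π ∈ PD D, PP π := fun π hπ => ((mem_PD hD.ne).1 hπ).1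
  obtain ⟨A, hA⟩ : ∃ A, A = (PD D).filter fun π => v π = 0 := ⟨_, rfl⟩
  obtain ⟨B, hB⟩ : ∃ B, B = (PD D).filter fun π => ¬ v π = 0 := ⟨_, rfl⟩
  have hAS : A ⊆ PD D := by rw [hA]; exact filter_subset _ _
  have hBS : B ⊆ PD D := by rw [hB]; exact filter_subset _ _
  obtain ⟨a1, a2⟩ := PS_prod (S := A) fun π hπ => hS π (hAS hπ)
  obtain ⟨b1, b2⟩ := PS_prod (S := B) fun π hπ => hS π (hBS hπ)
  have hprod : D = (∏ π ∈ A, π) * ∏ π ∈ B, π := by
    rw [hA, hB, prod_filter_mul_prod_filter_not]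
    exact hD.prod.symm
  have hv1 : ∀ x : ZMod 2, x ≠ 0 → x = 1 := by decide
  have key : ∀ π ∈ PD D, ∑ ρ ∈ PD D, qa π ρ * (v ρ - v π) =
      if v π = 0 then ∑ ρ ∈ B, qa π ρ else ∑ ρ ∈ A, qa π ρ := by
    intro π hπ
    rw [← sum_filter_add_sum_filter_not (PD D) (fun ρ => v ρ = 0), ← hA, ← hB]
    have e1 : ∀ ρ ∈ A, v ρ = 0 := fun ρ hρ => by rw [hA, mem_filter] at hρ; exact hρ.2
    have e2 : ∀ ρ ∈ B, v ρ = 1 := fun ρ hρ => by rw [hB, mem_filter] at hρ; exact hv1 _ hρ.2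
    split_ifs with h0
    · rw [sum_congr rfl fun ρ hρ => by rw [e1 ρ hρ, h0, sub_self, mul_zero],
        sum_congr (s₁ := B) rfl fun ρ hρ => by rw [e2 ρ hρ, h0, sub_zero, mul_one], sum_const_zero,
        zero_add]
    · have h1 := hv1 _ h0
      rw [sum_congr (s₁ := A) rfl fun ρ hρ => by rw [e1 ρ hρ, h1, zero_sub],
        sum_congr (s₁ := B) rfl fun ρ hρ => by rw [e2 ρ hρ, h1, sub_self, mul_zero], sum_const_zero,
        add_zero]
      refine sum_congr rfl fun ρ _ => ?_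
      have : (-1 : ZMod 2) = 1 := by decide
      rw [this, mul_one]
  have h1 := h _ _ a1.prm b1.prm hprod (fun π hπ => by
      rw [a2] at hπ
      have hπA := hπ
      rw [hA, mem_filter] at hπ
      refine (qr_prod hS hBS hπ.1 ?_).2 ?_
      · rw [hB, mem_filter]
        exact fun h => h.2 hπ.2
      · have := key π hπ.1
        rw [if_pos hπ.2, hv π hπ.1] at this
        exact this.symm)
    (fun π hπ => by
      rw [b2] at hπ
      rw [hB, mem_filter] at hπ
      refine (qr_prod hS hAS hπ.1 ?_).2 ?_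
      · rw [hA, mem_filter]
        exact fun h => hπ.2 h.2
      · have := key π hπ.1
        rw [if_neg hπ.2, hv π hπ.1] at this
        exact this.symm)
  rcases h1 with h1 | h1
  · have hAe : A = ∅ := by rw [← a2, h1, PD_one]
    have h2 : ∀ π ∈ PD D, v π = 1 := by
      intro π hπ
      apply hv1
      intro h3
      have : π ∈ A := by rw [hA, mem_filter]; exact ⟨hπ, h3⟩
      rw [hAe] at this
      exact absurd this (notMem_empty _)
    intro π hπ ρ hρ
    rw [h2 π hπ, h2 ρ hρ]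
  · have hBe : B = ∅ := by rw [← b2, h1, PD_one]
    have h2 : ∀ π ∈ PD D, v π = 0 := by
      intro π hπ
      by_contra h3
      have : π ∈ B := by rw [hB, mem_filter]; exact ⟨hπ, h3⟩
      rw [hBe] at this
      exact absurd this (notMem_empty _)
    intro π hπ ρ hρ
    rw [h2 π hπ, h2 ρ hρ]

theorem ker_of_gd {D : ZI} (hD : PS D) (hg : Gd (PD D)) : ∀ d d' : ZI, prim d → prim d' →
    D = d * d' → (∀ π ∈ PD d, qr π d' = 1) → (∀ π ∈ PD d', qr π d = 1) → d = 1 ∨ d' = 1 := by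
  intro d d' hd hd' he h1 h2
  have hS : ∀ π ∈ PD D, PP π := fun π hπ => ((mem_PD hD.ne).1 hπ).1
  have pd : PS d := hD.of_dvd hd ⟨d', he⟩
  have pd' : PS d' := hD.of_dvd hd' ⟨d, by rw [he, mul_comm]⟩
  have hun : PD D = PD d ∪ PD d' := by rw [he, PD_mul pd.ne pd'.ne]
  have hdis : Disjoint (PD d) (PD d') := by
    rw [disjoint_left]
    intro π hπ hπ'
    have k1 := ((mem_PD pd.ne).1 hπ)
    have k2 := ((mem_PD pd'.ne).1 hπ')
    have k3 : π * π ∣ D := by rw [he]; exact mul_dvd_mul k1.2 k2.2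
    exact k1.1.pr.not_isUnit (hD.sqf π k3)
  have hsub : PD d ⊆ PD D := by rw [hun]; exact subset_union_left
  have hsub' : PD d' ⊆ PD D := by rw [hun]; exact subset_union_right
  obtain ⟨v, hv⟩ : ∃ v : ZI → ZMod 2, ∀ π, v π = if π ∈ PD d' then 1 else 0 := ⟨_, fun _ => rfl⟩
  have e1 : ∀ π ∈ PD d, v π = 0 := fun π hπ => by
    rw [hv, if_neg (disjoint_left.1 hdis hπ)]
  have e2 : ∀ π ∈ PD d', v π = 1 := fun π hπ => by rw [hv, if_pos hπ]
  have hsol : Sol (PD D) v := by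
    intro π hπ
    have hsum : ∑ ρ ∈ PD D, qa π ρ * (v ρ - v π) =
        ∑ ρ ∈ PD d, qa π ρ * (0 - v π) + ∑ ρ ∈ PD d', qa π ρ * (1 - v π) := by
      rw [hun, sum_union hdis]
      congr 1
      · exact sum_congr rfl fun ρ hρ => by rw [e1 ρ hρ]
      · exact sum_congr rfl fun ρ hρ => by rw [e2 ρ hρ]
    rw [hsum]
    rw [hun, mem_union] at hπ
    rcases hπ with hπ | hπ
    · rw [e1 π hπ]
      have h3 := (qr_prod hS hsub' (hsub hπ) (disjoint_left.1 hdis hπ)).1 (by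
        rw [pd'.prod]; exact h1 π hπ)
      simp only [sub_self, mul_zero, sum_const_zero, zero_add, sub_zero, mul_one]
      exact h3
    · rw [e2 π hπ]
      have h3 := (qr_prod hS hsub (hsub' hπ) (disjoint_right.1 hdis hπ)).1 (by
        rw [pd.prod]; exact h2 π hπ)
      have : (0 - 1 : ZMod 2) = 1 := by decide
      simp only [sub_self, mul_zero, sum_const_zero, add_zero, this, mul_one]
      exact h3
  have hc := hg v hsol
  by_cases hde : PD d = ∅
  · left
    rw [← pd.prod, hde, prod_empty]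
  · right
    obtain ⟨π, hπ⟩ := nonempty_iff_ne_empty.2 hde
    have hde' : PD d' = ∅ := by
      rw [eq_empty_iff_forall_notMem]
      intro ρ hρ
      have := hc π (hsub hπ) ρ (hsub' hρ)
      rw [e1 π hπ, e2 ρ hρ] at this
      exact absurd this (by decide)
    rw [← pd'.prod, hde', prod_empty]

theorem cls_iff {R : Finset ℕ} {D : ZI} (hD : PS D) : nrm D % 16 ∈ R ↔ Cl R (PD D) := by
  have h1 : ∏ π ∈ PD D, nrm π = nrm D := by
    rw [← nrm_prod]
    exact congrArg nrm hD.prod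
  unfold Cl
  rw [h1]
  exact ⟨fun h => ⟨fun π hπ => ((mem_PD hD.ne).1 hπ).1, h⟩, fun h => h.2⟩

theorem card_eq (R : Finset ℕ) (X : ℕ) (Q : Finset ZI → Prop) :
    {D : ZI | nrm D ≤ X ∧ ClsE R D ∧ Q (PD D)}.ncard = ((SS R X).filter Q).card := by
  have h1 : {D : ZI | nrm D ≤ X ∧ ClsE R D ∧ Q (PD D)} =
      (fun S : Finset ZI => ∏ π ∈ S, π) '' (((SS R X).filter Q : Finset (Finset ZI)) :
        Set (Finset ZI)) := by
    ext D
    constructor
    · rintro ⟨h4, h2, h3⟩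
      have hD : PS D := h2.ps
      refine ⟨PD D, ?_, hD.prod⟩
      rw [Finset.mem_coe, Finset.mem_filter]
      refine ⟨?_, h3⟩
      unfold SS
      rw [Finset.mem_filter, Finset.mem_powerset]
      refine ⟨fun π hπ => ?_, (cls_iff hD).1 h2.nm, ?_⟩
      · obtain ⟨h5, h6⟩ := (mem_PD hD.ne).1 hπ
        exact mem_QB.2 ⟨(norm_le_of_dvd hD.ne h6).trans h4, h5⟩
      · rw [← nrm_prod]
        rw [show ∏ π ∈ PD D, π = D from hD.prod]
        exact h4
    · rintro ⟨S, hS, rfl⟩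
      rw [Finset.mem_coe, Finset.mem_filter] at hS
      obtain ⟨h1, h2⟩ := hS
      unfold SS at h1
      rw [Finset.mem_filter] at h1
      obtain ⟨-, h3, h4⟩ := h1
      obtain ⟨h5, h6⟩ := PS_prod h3.1
      refine ⟨?_, ⟨h5, (cls_iff h5).2 (by rw [h6]; exact h3)⟩, by rw [h6]; exact h2⟩
      show nrm (∏ π ∈ S, π) ≤ X
      rw [nrm_prod]
      exact h4
  rw [h1, Set.ncard_image_of_injOn, Set.ncard_coe_finset]
  intro S hS S' hS' h
  rw [Finset.mem_coe, Finset.mem_filter] at hS hS'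
  have e1 : ∀ π ∈ S, PP π := by
    have := hS.1
    unfold SS at this
    exact (Finset.mem_filter.1 this).2.1.1
  have e2 : ∀ π ∈ S', PP π := by
    have := hS'.1
    unfold SS at this
    exact (Finset.mem_filter.1 this).2.1.1
  rw [← (PS_prod e1).2, ← (PS_prod e2).2]
  exact congrArg PD h

theorem card_cls (R : Finset ℕ) (X : ℕ) : {D : ZI | nrm D ≤ X ∧ ClsE R D}.ncard = (SS R X).card := by
  have h := card_eq R X (fun _ => True)
  rw [Finset.filter_true] at h
  rw [← h]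
  congr 1
  ext D
  simp only [Set.mem_setOf_eq, and_true]

theorem card_good (R : Finset ℕ) (X : ℕ) :
    {D : ZI | nrm D ≤ X ∧ GoodE R D}.ncard = ((SS R X).filter Gd).card := by
  rw [← card_eq R X Gd]
  congr 1
  ext D
  constructor
  · rintro ⟨h1, h2⟩
    exact ⟨h1, h2.cl, gd_of_ker h2.cl.ps h2.ker⟩
  · rintro ⟨h1, h2, h3⟩
    exact ⟨h1, h2, ker_of_gd h2.ps h3⟩

theorem t_NS : S_NS := by
  intro h R hR
  refine (h R hR).congr fun X => ?_
  rw [card_cls, card_good]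

end Pool.Agent.H691.GZ.NS
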