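import Pool.Agent.Run7.h691.GZ.Stm
import Pool.Agent.Y703.CQ.Asy

/-!
# GZ: the final asymptotics (after `Y703/XK/Asy` of helper703)
-/

set_option autoImplicit false

open scoped Classical
open Finset Filter

namespace Pool.Agent.H691.GZ.AS

open H385 (ZI nrm)
open Pool.Agent.Y699 (PP QB)
open Pool.Agent.Y703.CX (jj XX eL zz kk eL_tendsto logX_eq rpow_eL HH NN ev_eL one_le_exp
  HH_ge HH_le HH_pos kk_ge kk_le X_pos one_add_log lin_le zz_ge zz_pos)
open Pool.Agent.Y703.CQ (Sml sml_of sml_add S_C2 c2)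
open Pool.Agent.H691.GZ

theorem sml_eps {E : ℕ → ℝ} (h : ∀ ε : ℝ, 0 < ε → ∃ X₀ : ℕ, ∀ X : ℕ, X₀ ≤ X → E X ≤ ε * X) :
    Sml 0 E := by
  intro δ hδ
  obtain ⟨X₀, h0⟩ := h δ hδ
  filter_upwards [eventually_ge_atTop X₀] with X hX
  have h1 := h0 X hX
  rw [neg_zero, zero_mul, Real.exp_zero, mul_one]
  exact h1

/-- sets with many primes -/
theorem sml_many {R : Finset ℕ} {C : ℝ} (h : CntP R C) :
    Sml 0 fun X => (((SS R X).filter fun S => kk X < S.card).card : ℝ) := by
  have hC := h.one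
  apply sml_of (C := 2 * C) (a := 1) (by norm_num)
  filter_upwards [ev_eL 1] with X hX
  have h0 : 0 < eL X := by linarith
  have h1 := h.many X (kk X) (X_pos h0)
  have h2 : Real.exp (2 * eL X) ≤ 2 ^ kk X := by
    have e : (2 : ℝ) ^ kk X = Real.exp (kk X * Real.log 2) := by
      rw [mul_comm, Real.exp_mul, Real.exp_log (by norm_num), Real.rpow_natCast]
    rw [e]
    apply Real.exp_le_exp.2
    have h3 := kk_ge X
    have h4 := Real.log_two_gt_d9
    nlinarith
  have hX0 : (0 : ℝ) ≤ X := Nat.cast_nonneg _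
  have h5 : (((SS R X).filter fun S => kk X < S.card).card : ℝ) * Real.exp (2 * eL X) ≤
      C * (X * (2 * Real.exp (eL X))) := by
    calc _ ≤ (((SS R X).filter fun S => kk X < S.card).card : ℝ) * 2 ^ kk X := by gcongr
      _ ≤ C * (X * (1 + Real.log X)) := h1
      _ ≤ _ := by
        have := one_add_log h0
        gcongr
  have h6 : (2 * C) * (X * Real.exp (-1 * eL X)) * Real.exp (2 * eL X) =
      C * (X * (2 * Real.exp (eL X))) := by
    have e : Real.exp (-1 * eL X) * Real.exp (2 * eL X) = Real.exp (eL X) := by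
      rw [← Real.exp_add]; congr 1; ring
    calc _ = 2 * C * X * (Real.exp (-1 * eL X) * Real.exp (2 * eL X)) := by ring
      _ = _ := by rw [e]; ring
  rw [← h6] at h5
  exact le_of_mul_le_mul_right h5 (Real.exp_pos _)

theorem kk_pos {X : ℕ} (h : 1 ≤ eL X) : 1 ≤ kk X := by
  have h1 := kk_ge X
  have h2 : (0 : ℝ) < kk X := by linarith
  exact_mod_cast h2

/-- sets near the boundary -/
theorem sml_cut {R : Finset ℕ} {C : ℝ} (h : CntP R C) :
    Sml 0 fun X => (((SS R X).filter fun S => S.card ≤ kk X ∧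
      X < (∏ π ∈ sm (zz X) S, nrm π) * ∏ π ∈ la (zz X) S, XX (HH X) (bl (HH X) π)).card : ℝ) := by
  have hC := h.one
  apply sml_of (C := 3 * C) (a := 1) (by norm_num)
  filter_upwards [ev_eL 1, lin_le (a := 1) (b := 11) (by norm_num) (by norm_num),
    lin_le (a := 1 / 2) (b := 4) (by norm_num) (by norm_num)] with X hX h11 h12
  have h0 : 0 < eL X := by linarith
  have h1 := h.cut X (zz X) (HH X) (kk X) (X_pos h0) (HH_pos h0) (kk_pos hX)
  refine h1.trans ?_
  have hH := HH_ge h0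
  have hHp : (0 : ℝ) < HH X := lt_of_lt_of_le (Real.exp_pos _) hH
  have hX0 : (0 : ℝ) ≤ X := Nat.cast_nonneg _
  have hkp : (0 : ℝ) < kk X := by exact_mod_cast kk_pos hX
  rw [one_mul] at h11
  have hk1 : (kk X : ℝ) ≤ Real.exp (eL X) := (kk_le hX).trans h11
  have h2 : (kk X : ℝ) / HH X ≤ Real.exp (-2 * eL X) := by
    rw [div_le_iff₀ hHp]
    calc (kk X : ℝ) ≤ Real.exp (eL X) := hk1
      _ = Real.exp (-2 * eL X) * Real.exp (3 * eL X) := by
          rw [← Real.exp_add]; congr 1; ring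
      _ ≤ _ := mul_le_mul_of_nonneg_left hH (Real.exp_pos _).le
  have h3 : C * (X * (1 + Real.log X)) * ((kk X : ℝ) / HH X) ≤ 2 * C * (X * Real.exp (-1 * eL X)) := by
    have h4 := one_add_log h0
    have h5 : (0 : ℝ) ≤ 1 + Real.log X := by
      have := Real.log_natCast_nonneg X
      linarith
    calc C * (X * (1 + Real.log X)) * ((kk X : ℝ) / HH X) ≤
          C * (X * (2 * Real.exp (eL X))) * Real.exp (-2 * eL X) := by gcongr
      _ = 2 * C * (X * (Real.exp (eL X) * Real.exp (-2 * eL X))) := by ring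
      _ = 2 * C * (X * Real.exp (-1 * eL X)) := by
          rw [← Real.exp_add]
          have : eL X + -2 * eL X = -1 * eL X := by ring
          rw [this]
  have h6 : Real.exp (-(Real.log X) / kk X) ≤ Real.exp (-1 * eL X) := by
    apply Real.exp_le_exp.2
    rw [div_le_iff₀ hkp, logX_eq h0]
    have h7 : (kk X : ℝ) ≤ 11 * eL X := kk_le hX
    have h8 : 16 * (eL X) ^ 2 ≤ Real.exp (eL X) := by
      have h9 : Real.exp (eL X) = Real.exp (1 / 2 * eL X) * Real.exp (1 / 2 * eL X) := by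
        rw [← Real.exp_add]; congr 1; ring
      rw [h9]
      have h10 : (4 * eL X) * (4 * eL X) ≤ Real.exp (1 / 2 * eL X) * Real.exp (1 / 2 * eL X) :=
        mul_le_mul h12 h12 (by linarith) (Real.exp_pos _).le
      nlinarith
    nlinarith [sq_nonneg (eL X)]
  have h13 : C * X * Real.exp (-(Real.log X) / kk X) ≤ C * (X * Real.exp (-1 * eL X)) := by
    rw [mul_assoc]
    gcongr
  linarith

/-- sets with two primes in one block -/
theorem sml_coll {R : Finset ℕ} {C : ℝ} (h : CntP R C) : Sml 0 fun X => (((SS R X).filter fun S =>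
    ¬ Set.InjOn (bl (HH X)) (la (zz X) S : Set ZI)).card : ℝ) := by
  have hC := h.one
  apply sml_of (C := 4 * C) (a := 1) (by norm_num)
  filter_upwards [ev_eL 1] with X hX
  have h0 : 0 < eL X := by linarith
  have h1 := h.coll X (zz X) (HH X) (X_pos h0) (zz_pos hX) (HH_pos h0)
  refine h1.trans ?_
  have hH := HH_ge h0
  have hHp : (0 : ℝ) < HH X := lt_of_lt_of_le (Real.exp_pos _) hH
  have hX0 : (0 : ℝ) ≤ X := Nat.cast_nonneg _
  have hzp : (0 : ℝ) < zz X := by exact_mod_cast zz_pos hX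
  have h2 : C * (X * (1 + Real.log X)) / HH X ≤ 2 * C * (X * Real.exp (-1 * eL X)) := by
    rw [div_le_iff₀ hHp]
    have h4 := one_add_log h0
    have e1 : Real.exp (eL X) ≤ Real.exp (-1 * eL X) * HH X := by
      calc Real.exp (eL X) ≤ Real.exp (-1 * eL X) * Real.exp (3 * eL X) := by
            rw [← Real.exp_add]
            apply Real.exp_le_exp.2
            linarith
        _ ≤ _ := mul_le_mul_of_nonneg_left hH (Real.exp_pos _).le
    calc C * (X * (1 + Real.log X)) ≤ C * (X * (2 * Real.exp (eL X))) := by gcongr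
      _ ≤ C * (X * (2 * (Real.exp (-1 * eL X) * HH X))) := by gcongr
      _ = 2 * C * (X * Real.exp (-1 * eL X)) * HH X := by ring
  have h3 : C * X / zz X ≤ 2 * C * (X * Real.exp (-1 * eL X)) := by
    rw [div_le_iff₀ hzp]
    have h4 := zz_ge hX
    have h5 : (1 : ℝ) / 2 ≤ Real.exp (-1 * eL X) * zz X := by
      have h6 : (1 : ℝ) ≤ Real.exp (-1 * eL X) * Real.exp ((eL X) ^ 3) := by
        rw [← Real.exp_add]
        apply one_le_exp
        have h7 : eL X ≤ (eL X) ^ 3 := by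
          have h8 : (eL X) ^ 3 = eL X * (eL X * eL X) := by ring
          rw [h8]
          nlinarith
        linarith
      calc (1 : ℝ) / 2 ≤ Real.exp (-1 * eL X) * Real.exp ((eL X) ^ 3) / 2 := by linarith
        _ = Real.exp (-1 * eL X) * (Real.exp ((eL X) ^ 3) / 2) := by ring
        _ ≤ _ := mul_le_mul_of_nonneg_left h4 (Real.exp_pos _).le
    calc C * X = 2 * C * X * (1 / 2) := by ring
      _ ≤ 2 * C * X * (Real.exp (-1 * eL X) * zz X) := by gcongr
      _ = _ := by ring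
  linarith

/-- the bilinear saving -/
noncomputable def kap (C : ℝ) (X : ℕ) : ℝ := (C / zz X) ^ (1 / 24 : ℝ)

theorem kap_nonneg {C : ℝ} (hC : 1 ≤ C) (X : ℕ) : 0 ≤ kap C X := by
  unfold kap
  positivity

theorem kap_pow {C : ℝ} (hC : 1 ≤ C) {X : ℕ} (h : 1 ≤ eL X) : C ≤ kap C X ^ 24 * zz X := by
  have hz : (0 : ℝ) < zz X := by exact_mod_cast zz_pos h
  unfold kap
  rw [← Real.rpow_natCast, ← Real.rpow_mul (by positivity)]
  norm_num
  rw [div_mul_cancel₀ _ hz.ne']

theorem kap_le {C : ℝ} (hC : 1 ≤ C) {X : ℕ} (h : 1 ≤ eL X) :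
    kap C X ≤ 2 * C * Real.exp (-(eL X) ^ 3 / 24) := by
  have hz : (0 : ℝ) < zz X := by exact_mod_cast zz_pos h
  have h1 : kap C X ^ 24 ≤ (2 * C * Real.exp (-(eL X) ^ 3 / 24)) ^ 24 := by
    have e1 : kap C X ^ 24 = C / zz X := by
      unfold kap
      rw [← Real.rpow_natCast, ← Real.rpow_mul (by positivity)]
      norm_num
    have e2 : (Real.exp (-(eL X) ^ 3 / 24)) ^ 24 = Real.exp (-(eL X) ^ 3) := by
      rw [← Real.exp_nat_mul]
      congr 1
      push_cast
      ring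
    rw [e1, mul_pow, e2, div_le_iff₀ hz]
    have h2 := zz_ge h
    have h3 : Real.exp (-(eL X) ^ 3) * Real.exp ((eL X) ^ 3) = 1 := by
      rw [← Real.exp_add]
      simp
    have h4 : 1 / 2 ≤ Real.exp (-(eL X) ^ 3) * zz X := by
      calc (1 : ℝ) / 2 = Real.exp (-(eL X) ^ 3) * (Real.exp ((eL X) ^ 3) / 2) := by linarith
        _ ≤ _ := mul_le_mul_of_nonneg_left h2 (Real.exp_pos _).le
    have h5 : 2 * C ≤ (2 * C) ^ 24 := by
      calc 2 * C = (2 * C) ^ 1 := (pow_one _).symm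
        _ ≤ (2 * C) ^ 24 := pow_le_pow_right₀ (by linarith) (by norm_num)
    calc C = 2 * C * (1 / 2) := by ring
      _ ≤ (2 * C) ^ 24 * (Real.exp (-(eL X) ^ 3) * zz X) := by gcongr
      _ = _ := by ring
  exact le_of_pow_le_pow_left₀ (by norm_num) (by positivity) h1

theorem log_three : Real.log 3 ≤ 1.1 := by
  have h3 : (3 : ℝ) ≤ Real.exp 1.1 := by
    have h4 : (2.7182818283 : ℝ) < Real.exp 1 := Real.exp_one_gt_d9
    have h5 : (1.105 : ℝ) ≤ Real.exp 0.1 := by
      have := Real.quadratic_le_exp_of_nonneg (x := 0.1) (by norm_num)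
      norm_num at this ⊢
      linarith
    have h6 : Real.exp 1.1 = Real.exp 1 * Real.exp 0.1 := by
      rw [← Real.exp_add]; norm_num
    rw [h6]
    nlinarith
  calc Real.log 3 ≤ Real.log (Real.exp 1.1) := Real.log_le_log (by norm_num) h3
    _ = 1.1 := Real.log_exp _

/-- the main error term -/
theorem sml_main {C : ℝ} (hC : 1 ≤ C) : Sml 0 fun X => (16 * (NN X : ℝ) + 16) ^ kk X *
    (3 ^ (9 * kk X ^ 2 + 9) * kap C X) * (X * (1 + Real.log X)) := by
  apply sml_of (C := 4 * C) (a := 1) (by norm_num)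
  filter_upwards [ev_eL 40000] with X hX
  set l := eL X with hl
  have h0 : 0 < eL X := by linarith
  have h1 : 1 ≤ eL X := by linarith
  have hX0 : (0 : ℝ) ≤ X := Nat.cast_nonneg _
  have hN : 16 * (NN X : ℝ) + 16 ≤ Real.exp (5 * l) := by
    have h2 : (NN X : ℝ) ≤ HH X * Real.log X + 1 := by
      unfold NN
      push_cast
      have := Nat.floor_le (a := (HH X : ℝ) * Real.log X)
        (mul_nonneg (Nat.cast_nonneg _) (Real.log_natCast_nonneg X))
      linarith
    have h3 : (HH X : ℝ) * Real.log X ≤ 2 * Real.exp (4 * l) := by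
      rw [logX_eq h0]
      calc (HH X : ℝ) * Real.exp (eL X) ≤ 2 * Real.exp (3 * eL X) * Real.exp (eL X) :=
            mul_le_mul_of_nonneg_right (HH_le h0) (Real.exp_pos _).le
        _ = 2 * Real.exp (4 * l) := by
            rw [mul_assoc, ← Real.exp_add]
            congr 2
            rw [hl]
            ring
    have h4 : 1 ≤ Real.exp (4 * l) := one_le_exp (by linarith)
    have h5 : (64 : ℝ) ≤ Real.exp l := by
      have := Real.add_one_le_exp l
      linarith
    have h6 : Real.exp (5 * l) = Real.exp (4 * l) * Real.exp l := by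
      rw [← Real.exp_add]; congr 1; ring
    rw [h6]
    nlinarith
  have hkk := kk_le h1
  have hkk0 : (0 : ℝ) ≤ kk X := Nat.cast_nonneg _
  have hA : (16 * (NN X : ℝ) + 16) ^ kk X ≤ Real.exp (55 * l ^ 2) := by
    calc (16 * (NN X : ℝ) + 16) ^ kk X ≤ (Real.exp (5 * l)) ^ kk X := by gcongr
      _ = Real.exp (kk X * (5 * l)) := (Real.exp_nat_mul _ _).symm
      _ ≤ Real.exp (55 * l ^ 2) := by
          apply Real.exp_le_exp.2
          nlinarith
  have hB : (3 : ℝ) ^ (9 * kk X ^ 2 + 9) ≤ Real.exp (1200 * l ^ 2) := by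
    have e : (3 : ℝ) ^ (9 * kk X ^ 2 + 9) = Real.exp ((9 * (kk X : ℝ) ^ 2 + 9) * Real.log 3) := by
      rw [mul_comm (9 * (kk X : ℝ) ^ 2 + 9) (Real.log 3), Real.exp_mul, Real.exp_log (by norm_num)]
      rw [← Real.rpow_natCast]
      congr 1
      push_cast
      ring
    rw [e]
    apply Real.exp_le_exp.2
    have h2 := log_three
    have h3 : (kk X : ℝ) ^ 2 ≤ 121 * l ^ 2 := by nlinarith
    have h4 : 0 ≤ (kk X : ℝ) ^ 2 := sq_nonneg _
    have h5 : (40000 : ℝ) ^ 2 ≤ l ^ 2 := by nlinarith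
    calc (9 * (kk X : ℝ) ^ 2 + 9) * Real.log 3 ≤ (9 * (kk X : ℝ) ^ 2 + 9) * 1.1 := by gcongr
      _ ≤ (9 * (121 * l ^ 2) + 9) * 1.1 := by gcongr
      _ ≤ 1200 * l ^ 2 := by linarith
  have hK := kap_le hC h1
  have hLg := one_add_log h0
  have hmain : (16 * (NN X : ℝ) + 16) ^ kk X * (3 ^ (9 * kk X ^ 2 + 9) * kap C X) *
      (X * (1 + Real.log X)) ≤ Real.exp (55 * l ^ 2) * (Real.exp (1200 * l ^ 2) *
        (2 * C * Real.exp (-l ^ 3 / 24))) * (X * (2 * Real.exp l)) := by
    have := kap_nonneg hC X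
    have : 0 ≤ 1 + Real.log X := by
      have := Real.log_natCast_nonneg X
      linarith
    gcongr
  refine hmain.trans ?_
  have e : Real.exp (55 * l ^ 2) * (Real.exp (1200 * l ^ 2) *
        (2 * C * Real.exp (-l ^ 3 / 24))) * (X * (2 * Real.exp l)) =
      4 * C * (X * Real.exp (55 * l ^ 2 + 1200 * l ^ 2 + -l ^ 3 / 24 + l)) := by
    rw [Real.exp_add, Real.exp_add, Real.exp_add]
    ring
  rw [e]
  have h9 : 55 * l ^ 2 + 1200 * l ^ 2 + -l ^ 3 / 24 + l ≤ -1 * l := by
    have h10 : 40000 * l ^ 2 ≤ l ^ 3 := by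
      have : l ^ 3 = l * l ^ 2 := by ring
      rw [this]
      exact mul_le_mul_of_nonneg_right hX (sq_nonneg l)
    nlinarith
  have h11 := Real.exp_le_exp.2 h9
  have hC0 : (0 : ℝ) ≤ 4 * C := by linarith
  gcongr

/-- the sets outside the regular part -/
theorem out_sub (R : Finset ℕ) (X z H k V : ℕ) :
    SS R X \ ((RR R X z H k V).filter fun S => Nd (sm z S) (la z S)) ⊆
      (((((SS R X).filter fun S => k < S.card) ∪
      ((SS R X).filter fun S => S.card ≤ k ∧
        X < (∏ π ∈ sm z S, nrm π) * ∏ π ∈ la z S, XX H (bl H π))) ∪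
      ((SS R X).filter fun S => ¬ Set.InjOn (bl H) (la z S : Set ZI))) ∪
      ((SS R X).filter fun S => S.card ≤ k ∧ (la z S).card ≤ (sm z S).card + V)) ∪
      ((SS R X).filter fun S => S.card ≤ k ∧ ¬ Nd (sm z S) (la z S)) := by
  intro S hS
  rw [Finset.mem_sdiff, Finset.mem_filter] at hS
  obtain ⟨h1, h2⟩ := hS
  simp only [mem_union, mem_filter]
  by_contra hc
  push Not at hc
  obtain ⟨⟨⟨⟨c1, c2⟩, c3⟩, c4⟩, c5⟩ := hc
  have d1 : S.card ≤ k := c1 h1
  have d2 := c2 h1 d1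
  have d3 := c3 h1
  have d4 := c4 h1 d1
  have d5 := c5 h1 d1
  apply h2
  refine ⟨?_, d5⟩
  unfold RR
  rw [mem_filter]
  exact ⟨h1, d3, d1, d2, d4⟩

/-- the comparison of the counts -/
theorem cmp (G : Finset ZI → Prop) (T S : Finset (Finset ZI)) (hTS : T ⊆ S) (c : ℝ) (hc0 : 0 ≤ c)
    (hc1 : c ≤ 1) :
    |((S.filter G).card : ℝ) - c * (S.card : ℝ)| ≤
      |((T.filter G).card : ℝ) - c * (T.card : ℝ)| + ((S \ T).card : ℝ) := by
  have e1 : ((S.filter G).card : ℝ) = (T.filter G).card + ((S \ T).filter G).card := by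
    rw [← Nat.cast_add, ← card_union_of_disjoint, ← filter_union, union_sdiff_of_subset hTS]
    exact disjoint_filter_filter (disjoint_sdiff)
  have e2 : (S.card : ℝ) = T.card + (S \ T).card := by
    rw [← Nat.cast_add, ← card_union_of_disjoint disjoint_sdiff, union_sdiff_of_subset hTS]
  have h1 : |(((S \ T).filter G).card : ℝ) - c * ((S \ T).card : ℝ)| ≤ ((S \ T).card : ℝ) := by
    have h2 : (((S \ T).filter G).card : ℝ) ≤ ((S \ T).card : ℝ) := by
      exact_mod_cast card_filter_le _ _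
    have h3 : (0 : ℝ) ≤ ((S \ T).card : ℝ) := Nat.cast_nonneg _
    exact Pool.Agent.Y703.CX.abs_sub_le_of (Nat.cast_nonneg _) h2 (mul_nonneg hc0 h3)
      (mul_le_of_le_one_left h3 hc1)
  have e3 : ((S.filter G).card : ℝ) - c * (S.card : ℝ) =
      (((T.filter G).card : ℝ) - c * (T.card : ℝ)) +
      ((((S \ T).filter G).card : ℝ) - c * ((S \ T).card : ℝ)) := by
    rw [e1, e2]; ring
  rw [e3]
  exact (abs_add_le _ _).trans (add_le_add le_rfl h1)

theorem t_DQ (h1 : S_BIL) (h3 : S_EQ) (h4 : S_LA) (h5 : S_BOX) (hK : S_KEY) (hC : S_CNT)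
    (hB : S_BAD) (hF : S_FEW) (hc2 : S_C2) : S_DQ := by
  intro R hLo
  obtain ⟨C, hC1, hkey⟩ := hK h1 h3 h4 h5
  obtain ⟨D, hD⟩ := hC R
  obtain ⟨c, X₀, hc, hlow⟩ := hLo
  rw [Metric.tendsto_nhds]
  intro ε hε
  obtain ⟨V, hV⟩ := exists_pow_lt_of_lt_one (show (0 : ℝ) < ε / 6 by linarith)
    (show (1 / 2 : ℝ) < 1 by norm_num)
  have s1 := sml_many hD
  have s2 := sml_cut hD
  have s3 := sml_coll hD
  have s4 := sml_eps (hF R V)
  have s5 := sml_eps (hB R)
  have s6 := sml_main hC1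
  have s := sml_add (sml_add (sml_add (sml_add (sml_add s1 s2) s3) s4) s5) s6
  have hδ : (0 : ℝ) < c * ε / 4 := by positivity
  filter_upwards [s (c * ε / 4) hδ, ev_eL 1, eventually_ge_atTop X₀] with X hX hl hX0
  rw [neg_zero, zero_mul, Real.exp_zero, mul_one] at hX
  have hl0 : 0 < eL X := by linarith
  have hlo := hlow X hX0
  have hXp := X_pos hl0
  have hXp' : (0 : ℝ) < X := by exact_mod_cast hXp
  have hSpos : (0 : ℝ) < ((SS R X).card : ℝ) := by
    refine lt_of_lt_of_le ?_ hlo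
    positivity
  have hN : (HH X : ℝ) * Real.log X < NN X := by
    unfold NN
    push_cast
    exact Nat.lt_floor_add_one _
  have hmain := hkey R X (zz X) (HH X) (kk X) V (NN X) (kap C X) hXp (HH_pos hl0) (zz_pos hl)
    (kap_nonneg hC1 X) (kap_pow hC1 hl) hN
  set T := (RR R X (zz X) (HH X) (kk X) V).filter fun S => Nd (sm (zz X) S) (la (zz X) S) with hT
  have hTG : (RR R X (zz X) (HH X) (kk X) V).filter
      (fun S => Nd (sm (zz X) S) (la (zz X) S) ∧ Gd S) = T.filter Gd := by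
    rw [hT, filter_filter]
  rw [hTG] at hmain
  have hTS : T ⊆ SS R X := (filter_subset _ _).trans (filter_subset _ _)
  have hRS : ((RR R X (zz X) (HH X) (kk X) V).card : ℝ) ≤ ((SS R X).card : ℝ) := by
    exact_mod_cast card_le_card (filter_subset _ _)
  have hcmp := cmp Gd T (SS R X) hTS c2 hc2.2.1.le hc2.2.2.1.le
  have hout : ((SS R X \ T).card : ℝ) ≤
      ((((SS R X).filter fun S => kk X < S.card).card : ℝ) +
      (((SS R X).filter fun S => S.card ≤ kk X ∧
        X < (∏ π ∈ sm (zz X) S, nrm π) * ∏ π ∈ la (zz X) S, XX (HH X) (bl (HH X) π)).card : ℝ) +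
      (((SS R X).filter fun S => ¬ Set.InjOn (bl (HH X)) (la (zz X) S : Set ZI)).card : ℝ) +
      (((SS R X).filter fun S => S.card ≤ kk X ∧
        (la (zz X) S).card ≤ (sm (zz X) S).card + V).card : ℝ)) +
      (((SS R X).filter fun S => S.card ≤ kk X ∧ ¬ Nd (sm (zz X) S) (la (zz X) S)).card : ℝ) := by
    have g := card_le_card (out_sub R X (zz X) (HH X) (kk X) V)
    rw [← hT] at g
    have g2 := (g.trans (card_union_le _ _)).trans (Nat.add_le_add_right ((card_union_le _ _).trans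
      (Nat.add_le_add_right ((card_union_le _ _).trans
      (Nat.add_le_add_right (card_union_le _ _) _)) _)) _)
    exact_mod_cast g2
  have htot : |(((SS R X).filter Gd).card : ℝ) - c2 * ((SS R X).card : ℝ)| ≤
      2 * (1 / 2 : ℝ) ^ V * ((SS R X).card : ℝ) + c * ε / 4 * X := by
    have g1 : 2 * (1 / 2 : ℝ) ^ V * ((RR R X (zz X) (HH X) (kk X) V).card : ℝ) ≤
        2 * (1 / 2 : ℝ) ^ V * ((SS R X).card : ℝ) := mul_le_mul_of_nonneg_left hRS (by positivity)
    linarith
  rw [Real.dist_eq]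
  have e3 : (((SS R X).filter Gd).card : ℝ) / ((SS R X).card : ℝ) - c2 =
      ((((SS R X).filter Gd).card : ℝ) - c2 * ((SS R X).card : ℝ)) /
        ((SS R X).card : ℝ) := by
    field_simp
  rw [e3, abs_div, abs_of_pos hSpos, div_lt_iff₀ hSpos]
  refine lt_of_le_of_lt htot ?_
  have g2 : c * ε / 4 * X ≤ ε / 4 * ((SS R X).card : ℝ) := by
    calc c * ε / 4 * X = ε / 4 * (c * X) := by ring
      _ ≤ _ := mul_le_mul_of_nonneg_left hlo (by linarith)
  have g3 : 2 * (1 / 2 : ℝ) ^ V * ((SS R X).card : ℝ) ≤ 2 * (ε / 6) * ((SS R X).card : ℝ) := by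
    gcongr
  have g4 : 0 < ε * ((SS R X).card : ℝ) := by positivity
  linarith

end Pool.Agent.H691.GZ.AS
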