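import Pool.Agent.Run7.h691.GZ.Bil
import Pool.Agent.Run7.h691.GZ.EQ
import Pool.Agent.Run7.h691.GZ.BOX
import Pool.Agent.Run7.h691.GZ.LA
import Pool.Agent.Run7.h691.GZ.Key3
import Pool.Agent.Run7.h691.GZ.CNT
import Pool.Agent.Run7.h691.GZ.Few
import Pool.Agent.Run7.h691.GZ.NS
import Pool.Agent.Run7.h691.GZ.Asy
import Pool.Agent.Y839.CQ.SYM
import Pool.Agent.Y948.CQ.C2
import Pool.Agent.Y699.Pos
import Pool.Agent.Y699.R10

/-!
# Project GZ: the exact proportion over `ℚ(i)`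

After project XK (over `ℚ(ω)`), the joint work of helpers 363, 710, 804, 528, 85, 688, 697, 474, 433,
550 and 703, on the library `Pool/Agent/Y699` of helper699 over `ℤ[i]`.
-/

set_option autoImplicit false

open scoped Classical

namespace Pool.Agent.H691.GZ

open Finset
open H385 (ZI nrm)
open Pool.Agent.Y699 (PP PS QB PD SB mem_SB)
open Pool.Agent.Y703.CQ (c2)

theorem t_KEY : S_KEY := fun hB1 hE hL hB =>
  KEY.t_KEG hB1 (G := Gd) (cc := c2) (B := 2) (hB hE hL) (by norm_num)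

theorem t_DQ_all : S_DQ :=
  AS.t_DQ t_BIL EQ.t_EQ (LA.t_LA Pool.Agent.Y839.CQ.t_SYM Pool.Agent.Y948.CQ.t_C2)
    BOX.t_BOX t_KEY CNT.t_CNT BF.t_BAD BF.t_FEW Pool.Agent.Y948.CQ.t_C2

/-- **the exact proportion over `ℚ(i)`** -/
theorem t_DEN : S_DEN := NS.t_NS t_DQ_all

theorem nrm_mod (D : ZI) : ((nrm D : ℕ) : ℤ) = D.norm := GaussianInt.abs_natCast_norm D

/-- the class of all elements of norm `5` modulo `8` has positive density -/
theorem low5 : S_LOW {5, 13} := by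
  obtain ⟨c, hc, X₀, h⟩ := Pool.Agent.Y699.positive
  refine ⟨c, X₀, hc, fun X hX => (h X hX).trans ?_⟩
  have h1 : Pool.Agent.Y699.GB X ⊆ (SS {5, 13} X).image fun S => ∏ π ∈ S, π := by
    intro D hD
    unfold Pool.Agent.Y699.GB at hD
    have hD' := Finset.mem_filter.1 hD
    have h2 := mem_SB.1 hD'.1
    have h3 : nrm D % 16 ∈ ({5, 13} : Finset ℕ) := by
      have h4 := hD'.2.five
      rw [← nrm_mod] at h4
      rw [mem_insert, mem_singleton]
      omega
    rw [mem_image]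
    refine ⟨PD D, ?_, h2.2.prod⟩
    unfold SS
    rw [mem_filter, mem_powerset]
    refine ⟨fun π hπ => ?_, (NS.cls_iff h2.2).1 h3, ?_⟩
    · obtain ⟨h5, h6⟩ := (Pool.Agent.Y699.mem_PD h2.2.ne).1 hπ
      exact Pool.Agent.Y699.mem_QB.2 ⟨(Pool.Agent.Y699.norm_le_of_dvd h2.2.ne h6).trans h2.1, h5⟩
    · rw [← Pool.Agent.Y699.nrm_prod]
      rw [show ∏ π ∈ PD D, π = D from h2.2.prod]
      exact h2.1
  exact_mod_cast (card_le_card h1).trans card_image_le

/-- the class of all elements of norm `13` modulo `16` has positive density -/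
theorem low13 : S_LOW {13} := by
  obtain ⟨c, hc, X₀, h⟩ := Pool.Agent.Y699.positive₄
  refine ⟨c, X₀, hc, fun X hX => (h X hX).trans ?_⟩
  have h1 : Pool.Agent.Y699.GB₄ X ⊆ (SS {13} X).image fun S => ∏ π ∈ S, π := by
    intro D hD
    unfold Pool.Agent.Y699.GB₄ at hD
    have hD' := Finset.mem_filter.1 hD
    have h2 := mem_SB.1 hD'.1
    have h3 : nrm D % 16 ∈ ({13} : Finset ℕ) := by
      have h4 := hD'.2.nm
      rw [← nrm_mod] at h4
      rw [mem_singleton]
      omega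
    rw [mem_image]
    refine ⟨PD D, ?_, h2.2.prod⟩
    unfold SS
    rw [mem_filter, mem_powerset]
    refine ⟨fun π hπ => ?_, (NS.cls_iff h2.2).1 h3, ?_⟩
    · obtain ⟨h5, h6⟩ := (Pool.Agent.Y699.mem_PD h2.2.ne).1 hπ
      exact Pool.Agent.Y699.mem_QB.2 ⟨(Pool.Agent.Y699.norm_le_of_dvd h2.2.ne h6).trans h2.1, h5⟩
    · rw [← Pool.Agent.Y699.nrm_prod]
      rw [show ∏ π ∈ PD D, π = D from h2.2.prod]
      exact h2.1
  exact_mod_cast (card_le_card h1).trans card_image_le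

end Pool.Agent.H691.GZ
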