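import Pool.Agent.Run7.h691.GZ.Sq3
import Pool.Agent.Run7.h691.GZ.Fin

/-!
# GZ-SQ: the share of the good elements among all the squarefree Gaussian integers
-/

set_option autoImplicit false
set_option linter.unusedVariables false

open scoped Classical

namespace Pool.Agent.H691.GZ.SQ

open Finset Filter
open H385 (ZI nrm)
open Pool.Agent.Y699
open Pool.Agent.H304R2.EC.A1 (prim prim_mul prim_cancel prim_one prim_ne_zero prim_norm_odd)
open Pool.Agent.Y703.CQ (c2)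

theorem per_AR (R : Finset ℕ) : Per 8 (AR R) := by
  intro x y h
  obtain ⟨c, hc⟩ := h
  have h1 : x.re = y.re + 8 * c.re := by
    have := congrArg Zsqrtd.re hc
    simp at this
    linarith
  have h2 : x.im = y.im + 8 * c.im := by
    have := congrArg Zsqrtd.im hc
    simp at this
    linarith
  have h3 : x.norm = y.norm + 16 * (y.re * c.re + 4 * c.re * c.re + y.im * c.im +
      4 * c.im * c.im) := by
    rw [norm_sq, norm_sq, h1, h2]
    ring
  have h4 : nrm x % 16 = nrm y % 16 := by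
    have e1 := nrm_int x
    have e2 := nrm_int y
    rw [h3] at e1
    omega
  unfold AR
  rw [h4]
  have h5 : prim x ↔ prim y := by
    unfold prim
    rw [h1, h2]
    constructor
    · rintro ⟨h6, h7⟩
      constructor <;> omega
    · rintro ⟨h6, h7⟩
      constructor <;> omega
  rw [h5]

theorem prim_mod4 {t : ZI} (ht : prim t) : nrm t % 4 = 1 := by
  have e1 := nrm_int t
  obtain ⟨h1, h2⟩ := ht
  obtain ⟨k, hk⟩ : ∃ k, t.im = 2 * k := ⟨t.im / 2, by omega⟩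
  obtain ⟨j, hj⟩ : ∃ j, t.re = 1 - 2 * k + 4 * j := ⟨(t.re + t.im - 1) / 4, by omega⟩
  have h3 : t.norm = 1 + 4 * (k * k - k + k * k + 2 * j - 4 * k * j + 4 * j * j) := by
    rw [norm_sq, hk, hj]
    ring
  rw [h3] at e1
  omega

theorem sq_mod16 {t : ZI} (ht : prim t) : nrm t * nrm t % 16 = 1 ∨ nrm t * nrm t % 16 = 9 := by
  have h := prim_mod4 ht
  have h1 : nrm t % 16 = 1 ∨ nrm t % 16 = 5 ∨ nrm t % 16 = 9 ∨ nrm t % 16 = 13 := by omega
  rw [Nat.mul_mod]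
  rcases h1 with h1 | h1 | h1 | h1 <;> rw [h1] <;> norm_num

theorem prim_tt {t : ZI} (ht : prim t) (x : ZI) : prim (t * t * x) ↔ prim x :=
  ⟨fun h => prim_cancel (prim_mul ht ht) h, fun h => prim_mul (prim_mul ht ht) h⟩

theorem mod_tt {t : ZI} (ht : prim t) (x : ZI) :
    nrm (t * t * x) % 16 = nrm x % 16 ∨ nrm (t * t * x) % 16 = 9 * nrm x % 16 := by
  rw [nrm_mul, nrm_mul, Nat.mul_mod]
  rcases sq_mod16 ht with h | h <;> rw [h]
  · left
    omega
  · right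
    omega

theorem mod_tt' {t : ZI} (ht : prim t) :
    (∀ x, nrm (t * t * x) % 16 = nrm x % 16) ∨ (∀ x, nrm (t * t * x) % 16 = 9 * nrm x % 16) := by
  rcases sq_mod16 ht with h | h
  · left
    intro x
    rw [nrm_mul, nrm_mul, Nat.mul_mod, h]
    omega
  · right
    intro x
    rw [nrm_mul, nrm_mul, Nat.mul_mod, h]
    omega

theorem nrm_mk (x y : ℤ) (k : ℕ) (hk : k < 16) :
    nrm (⟨x, y⟩ : ZI) % 16 = k ↔ (x * x + y * y) % 16 = k := by
  have e := nrm_int ⟨x, y⟩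
  rw [norm_sq] at e
  simp only at e
  rw [← e]
  omega

theorem nrm9_mk (x y : ℤ) (k : ℕ) (hk : k < 16) :
    9 * nrm (⟨x, y⟩ : ZI) % 16 = k ↔ 9 * (x * x + y * y) % 16 = k := by
  have e := nrm_int ⟨x, y⟩
  rw [norm_sq] at e
  simp only at e
  rw [← e]
  omega

theorem res13 (t : ZI) (ht : prim t) : res 8 (fun x => AR {13} (t * t * x)) = 2 := by
  rcases mod_tt' ht with h | h
  · rw [res_eq (fun x y => decide ((y % 2 = 0 ∧ (x + y) % 4 = 1) ∧ (x * x + y * y) % 16 = 13))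
      (fun x y => by
        unfold AR
        rw [prim_tt ht, mem_singleton, h, nrm_mk x y 13 (by norm_num), decide_eq_true_iff]
        exact Iff.rfl)]
    decide
  · rw [res_eq (fun x y => decide ((y % 2 = 0 ∧ (x + y) % 4 = 1) ∧ 9 * (x * x + y * y) % 16 = 13))
      (fun x y => by
        unfold AR
        rw [prim_tt ht, mem_singleton, h, nrm9_mk x y 13 (by norm_num), decide_eq_true_iff]
        exact Iff.rfl)]
    decide

theorem res5 (t : ZI) (ht : prim t) : res 8 (fun x => AR {5, 13} (t * t * x)) = 4 := by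
  rcases mod_tt' ht with h | h
  · rw [res_eq (fun x y => decide ((y % 2 = 0 ∧ (x + y) % 4 = 1) ∧
        ((x * x + y * y) % 16 = 5 ∨ (x * x + y * y) % 16 = 13)))
      (fun x y => by
        unfold AR
        rw [prim_tt ht, mem_insert, mem_singleton, h, nrm_mk x y 5 (by norm_num),
          nrm_mk x y 13 (by norm_num), decide_eq_true_iff]
        exact Iff.rfl)]
    decide
  · rw [res_eq (fun x y => decide ((y % 2 = 0 ∧ (x + y) % 4 = 1) ∧
        (9 * (x * x + y * y) % 16 = 5 ∨ 9 * (x * x + y * y) % 16 = 13)))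
      (fun x y => by
        unfold AR
        rw [prim_tt ht, mem_insert, mem_singleton, h, nrm9_mk x y 5 (by norm_num),
          nrm9_mk x y 13 (by norm_num), decide_eq_true_iff]
        exact Iff.rfl)]
    decide

theorem AR_odd (R : Finset ℕ) (x : ZI) (h : AR R x) : x.norm % 2 = 1 := prim_norm_odd h.1

theorem FR13_lo {X s : ℕ} (hs : X ≤ s * s) (hs1 : 1 ≤ s) :
    1 / 32 * MM X s ≤ ((FR {13} X).card : ℝ) + 24 * (36 * Real.sqrt X * lg s + 9 * s) := by
  have h1 := count_sq (m := 8) (by norm_num) (per_AR {13}) (AR_odd {13}) res13 hs hs1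
  rw [abs_le] at h1
  have k1 := h1.1
  unfold FR
  norm_num at k1 ⊢
  linarith

theorem FR5_lo {X s : ℕ} (hs : X ≤ s * s) (hs1 : 1 ≤ s) :
    1 / 16 * MM X s ≤ ((FR {5, 13} X).card : ℝ) + 24 * (36 * Real.sqrt X * lg s + 9 * s) := by
  have h1 := count_sq (m := 8) (by norm_num) (per_AR {5, 13}) (AR_odd {5, 13}) res5 hs hs1
  rw [abs_le] at h1
  have k1 := h1.1
  unfold FR
  norm_num at k1 ⊢
  linarith

theorem FR_card (R : Finset ℕ) (X : ℕ) : (FR R X).card = (SS R X).card := by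
  rw [← NS.card_cls, ← Set.ncard_coe_finset]
  congr 1
  ext D
  unfold FR
  rw [mem_coe, mem_filter, mem_ZB]
  unfold AR
  constructor
  · rintro ⟨h1, ⟨h2, h3⟩, h4⟩
    exact ⟨h1, ⟨h2, h4⟩, h3⟩
  · rintro ⟨h1, ⟨h2, h4⟩, h3⟩
    exact ⟨h1, ⟨h2, h3⟩, h4⟩

/-- the error term -/
theorem err_small : ∀ ε : ℝ, 0 < ε → ∃ X₀ : ℕ, ∀ X : ℕ, X₀ ≤ X →
    36 * Real.sqrt X * lg (Nat.sqrt X + 1) + 9 * ((Nat.sqrt X + 1 : ℕ) : ℝ) ≤ ε * X := by
  intro ε hε
  have h1 : Tendsto (fun X : ℕ => (X : ℝ) ^ (1 / 4 : ℝ)) atTop atTop :=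
    (tendsto_rpow_atTop (by norm_num)).comp tendsto_natCast_atTop_atTop
  obtain ⟨N, hN⟩ := eventually_atTop.1 (h1.eventually (eventually_ge_atTop (342 / ε)))
  refine ⟨max N 3, fun X hX => ?_⟩
  have hXN : N ≤ X := (le_max_left _ _).trans hX
  have hX3 : 3 ≤ X := (le_max_right _ _).trans hX
  have hX1 : 1 ≤ X := by omega
  have hXr : (1 : ℝ) ≤ X := by exact_mod_cast hX1
  have hq := hN X hXN
  set q : ℝ := (X : ℝ) ^ (1 / 4 : ℝ) with hqd
  have hq0 : 0 < q := by positivity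
  have hq4 : q ^ 4 = X := by
    rw [hqd, ← Real.rpow_natCast, ← Real.rpow_mul (by linarith)]
    norm_num
  have hq1 : 1 ≤ q := Real.one_le_rpow hXr (by norm_num)
  have hq2 : Real.sqrt X = q ^ 2 := by
    rw [Real.sqrt_eq_iff_mul_self_eq (by linarith) (by positivity), ← hq4]
    ring
  have hs : (Nat.sqrt X + 1) ≤ X := by
    have : Nat.sqrt X < X := Nat.sqrt_lt_self (by omega)
    omega
  have hlg : lg (Nat.sqrt X + 1) ≤ 9 * q := by
    have h4 := lg_le_rpow (show (0 : ℝ) < 1 / 4 by norm_num) X hX1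
    refine (lg_mono hs).trans (h4.trans (le_of_eq ?_))
    rw [← hqd]
    norm_num
  have hs' : ((Nat.sqrt X + 1 : ℕ) : ℝ) ≤ 2 * q ^ 2 := by
    push_cast
    have h5 : (Nat.sqrt X : ℝ) ≤ Real.sqrt X := Real.nat_sqrt_le_real_sqrt
    rw [hq2] at h5
    nlinarith
  have h6 : 342 ≤ ε * q := by
    rw [div_le_iff₀ hε] at hq
    linarith
  rw [hq2, ← hq4]
  have h7 : 36 * q ^ 2 * lg (Nat.sqrt X + 1) ≤ 36 * q ^ 2 * (9 * q) :=
    mul_le_mul_of_nonneg_left hlg (by positivity)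
  have h8 : q ^ 2 ≤ q ^ 3 := by
    have : q ^ 3 = q ^ 2 * q := by ring
    rw [this]
    nlinarith [sq_nonneg q]
  have h9 : 342 * q ^ 3 ≤ ε * q ^ 4 := by
    calc 342 * q ^ 3 ≤ (ε * q) * q ^ 3 := mul_le_mul_of_nonneg_right h6 (by positivity)
      _ = ε * q ^ 4 := by ring
  nlinarith

theorem le_sqr (X : ℕ) : X ≤ (Nat.sqrt X + 1) * (Nat.sqrt X + 1) := (Nat.lt_succ_sqrt X).le

/-- the comparison -/
theorem share {R : Finset ℕ} {n : ℝ} (hn : 0 < n) {C : ℝ} (hC : 0 ≤ C)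
    (h : ∀ X : ℕ, ((TT X).card : ℝ) ≤ n * ((SS R X).card : ℝ) +
      C * (36 * Real.sqrt X * lg (Nat.sqrt X + 1) + 9 * ((Nat.sqrt X + 1 : ℕ) : ℝ)))
    (hlow : S_LOW R) {κ : ℝ} (hκ : κ < c2 / n) :
    ∃ X₀ : ℕ, ∀ X : ℕ, X₀ ≤ X →
      κ * ((TT X).card : ℝ) ≤ ({D : ZI | nrm D ≤ X ∧ GoodE R D}.ncard : ℝ) := by
  by_cases hκ0 : κ ≤ 0
  · refine ⟨0, fun X _ => ?_⟩
    have h1 : κ * ((TT X).card : ℝ) ≤ 0 := mul_nonpos_of_nonpos_of_nonneg hκ0 (Nat.cast_nonneg _)
    exact h1.trans (Nat.cast_nonneg _)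
  push Not at hκ0
  have hden := t_DEN R hlow
  obtain ⟨c, X₁, hc, hlo⟩ := hlow
  -- choose the margins
  have hκn : κ * n < c2 := by rwa [lt_div_iff₀ hn] at hκ
  obtain ⟨η, hη⟩ : ∃ η : ℝ, η = (c2 - κ * n) / 2 := ⟨_, rfl⟩
  have hη0 : 0 < η := by rw [hη]; linarith
  have h1 := (tendsto_order.1 hden).1 (c2 - η) (by linarith)
  obtain ⟨X₂, hX₂⟩ := eventually_atTop.1 h1
  obtain ⟨X₃, hX₃⟩ := err_small (η * c / (κ * (C + 1))) (by positivity)
  refine ⟨max (max X₁ X₂) (max X₃ 1), fun X hX => ?_⟩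
  have k1 : X₁ ≤ X := ((le_max_left _ _).trans (le_max_left _ _)).trans hX
  have k2 : X₂ ≤ X := ((le_max_right _ _).trans (le_max_left _ _)).trans hX
  have k3 : X₃ ≤ X := ((le_max_left _ _).trans (le_max_right _ _)).trans hX
  have k4 : 1 ≤ X := ((le_max_right _ _).trans (le_max_right _ _)).trans hX
  have hXr : (0 : ℝ) < X := by exact_mod_cast k4
  have l1 := hlo X k1
  have l2 := hX₂ X k2
  have l3 := hX₃ X k3
  have l4 := h X
  set S : ℝ := ((SS R X).card : ℝ) with hS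
  set G : ℝ := ({D : ZI | nrm D ≤ X ∧ GoodE R D}.ncard : ℝ) with hG
  set E : ℝ := 36 * Real.sqrt X * lg (Nat.sqrt X + 1) + 9 * ((Nat.sqrt X + 1 : ℕ) : ℝ) with hE
  have hS0 : 0 < S := lt_of_lt_of_le (by positivity) l1
  have hcl : ({D : ZI | nrm D ≤ X ∧ ClsE R D}.ncard : ℝ) = S := by
    rw [NS.card_cls]
  rw [hcl, lt_div_iff₀ hS0] at l2
  have hE0 : 0 ≤ E := by
    rw [hE]
    have := lg_pos (Nat.sqrt X + 1)
    positivity
  have l5 : κ * (C * E) ≤ η * S := by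
    have h5 : κ * (C + 1) * E ≤ η * c * X := by
      have h6 := mul_le_mul_of_nonneg_left l3 (show 0 ≤ κ * (C + 1) by positivity)
      have h7 : κ * (C + 1) * (η * c / (κ * (C + 1)) * X) = η * c * X := by
        field_simp
      rw [h7] at h6
      exact h6
    have h8 : κ * (C * E) ≤ κ * (C + 1) * E := by
      have : 0 ≤ κ * E := by positivity
      nlinarith
    have h9 : η * c * X ≤ η * S := by
      rw [mul_assoc]
      exact mul_le_mul_of_nonneg_left l1 hη0.le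
    linarith
  calc κ * ((TT X).card : ℝ) ≤ κ * (n * S + C * E) := mul_le_mul_of_nonneg_left l4 hκ0.le
    _ = κ * n * S + κ * (C * E) := by ring
    _ ≤ κ * n * S + η * S := by linarith
    _ = (c2 - η) * S := by rw [hη]; ring
    _ ≤ G := l2.le

/-- **at least the share `c2 / 12` of all squarefree elements is good** -/
theorem share5 {κ : ℝ} (hκ : κ < c2 / 12) : ∃ X₀ : ℕ, ∀ X : ℕ, X₀ ≤ X →
    κ * ((TT X).card : ℝ) ≤ ({D : ZI | nrm D ≤ X ∧ GoodE {5, 13} D}.ncard : ℝ) := by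
  refine share (n := 12) (by norm_num) (C := 303) (by norm_num) (fun X => ?_) low5 hκ
  have h1 := TT_up (le_sqr X) (by omega : 1 ≤ Nat.sqrt X + 1)
  have h2 := FR5_lo (le_sqr X) (by omega : 1 ≤ Nat.sqrt X + 1)
  rw [FR_card] at h2
  linarith

/-- **at least the share `c2 / 24` of all squarefree elements is good for the quartic twists** -/
theorem share13 {κ : ℝ} (hκ : κ < c2 / 24) : ∃ X₀ : ℕ, ∀ X : ℕ, X₀ ≤ X →
    κ * ((TT X).card : ℝ) ≤ ({D : ZI | nrm D ≤ X ∧ GoodE {13} D}.ncard : ℝ) := by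
  refine share (n := 24) (by norm_num) (C := 591) (by norm_num) (fun X => ?_) low13 hκ
  have h1 := TT_up (le_sqr X) (by omega : 1 ≤ Nat.sqrt X + 1)
  have h2 := FR13_lo (le_sqr X) (by omega : 1 ≤ Nat.sqrt X + 1)
  rw [FR_card] at h2
  linarith

end Pool.Agent.H691.GZ.SQ
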