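import Pool.Agent.Run7.h691.GZ.Key

/-!
# GZ-KEY: the sum over the boxes (after `Y696/XL/Key2`, by helper697)
-/

set_option autoImplicit false

namespace Pool.Agent.H691.GZ.KEY

open Finset
open H385 (ZI nrm)
open Pool.Agent.Y699 (PP PP.ps QB mem_QB nrm_prod PS_prod PD SB mem_SB card_SB_le hsum_SB lg)
open Pool.Agent.Y703.CX (jj XX)
open Pool.Agent.H691.GZ
open scoped Classical

theorem prs_card (ι : Type) [Fintype ι] [LinearOrder ι] :
    (prs ι).card ≤ Fintype.card ι * Fintype.card ι := by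
  refine (Finset.card_le_card (Finset.subset_univ _)).trans ?_
  rw [Finset.card_univ, Fintype.card_prod]

theorem per_key {G : Finset ZI → Prop} {cc B : ℝ} (hB : BXG G cc B) (hB0 : 0 ≤ B) {C₁ : ℝ}
    (hb1 : ∀ (P Q : Finset ZI) (A B z : ℕ) (c d : ZI → ℝ),
      (∀ π ∈ P, PP π ∧ nrm π ≤ A) → (∀ ρ ∈ Q, PP ρ ∧ nrm ρ ≤ B) → Disjoint P Q →
      1 ≤ z → z ≤ A → z ≤ B → (∀ π, |c π| ≤ 1) → (∀ ρ, |d ρ| ≤ 1) →
      |∑ π ∈ P, ∑ ρ ∈ Q, c π * d ρ * sg (qa π ρ)| ^ 24 * z ≤ C₁ * ((A : ℝ) * B) ^ 24)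
    {R : Finset ℕ} {X z H k V : ℕ} {κ : ℝ} (hH : 1 ≤ H) (hz : 1 ≤ z) (hκ : 0 ≤ κ)
    (h1 : C₁ ≤ κ ^ 24 * z) {S₀ : Finset ZI} {J : Finset ℕ}
    (hkey : (S₀, J) ∈ (RR R X z H k V).image (ky z H)) :
    |(((RR R X z H k V).filter fun S => ky z H S = (S₀, J) ∧
        (Nd (sm z S) (la z S) ∧ G S)).card : ℝ) -
      cc * (((RR R X z H k V).filter fun S => ky z H S = (S₀, J) ∧
        Nd (sm z S) (la z S)).card : ℝ)| ≤
    B * (1 / 2 : ℝ) ^ V * (((RR R X z H k V).filter fun S => ky z H S = (S₀, J) ∧ True).card : ℝ) +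
      (3 ^ (9 * k ^ 2) * κ) * (X * (1 / ((∏ p ∈ S₀, nrm p : ℕ) : ℝ))) := by
  obtain ⟨h₀O, h₀, hJi, hCd, hJf⟩ := key_facts hH hkey
  obtain ⟨c1, c4, c5, c6⟩ := hCd
  have hcJ : Fintype.card J = J.card := Fintype.card_coe J
  have hCmem : ∀ i : J, ∀ p ∈ CC z H i, PP p ∧ z < nrm p ∧ nrm p ≤ XX H (i.1 / 16) := by
    intro i p hp
    obtain ⟨k1, k2, k3⟩ := (mem_CC hH).1 hp
    refine ⟨k1, k2, ?_⟩
    unfold CC at hp
    rw [Finset.mem_filter, mem_QB] at hp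
    exact hp.1.1
  have hdis : ∀ i l : J, i ≠ l → Disjoint (CC z H (i : ℕ)) (CC z H (l : ℕ)) := by
    intro i l hil
    rw [Finset.disjoint_left]
    intro p hp hp'
    have h5 := ((mem_CC hH).1 hp).2.2
    have h6 := ((mem_CC hH).1 hp').2.2
    exact hil (Subtype.ext (h5.symm.trans h6))
  have hzX : ∀ i : J, z ≤ XX H (i.1 / 16) := fun i => (hJf i i.2).1
  have hHB : HB (fun i : J => CC z H i) (fun i : J => 16 * XX H (i.1 / 16)) κ :=
    hb_box hb1 _ _ hz hκ h1 (fun i => by have := hzX i; omega)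
      (fun i p hp => by
        obtain ⟨k1, k2, k3⟩ := hCmem i p hp
        exact ⟨k1, by omega⟩) hdis
  have hcard : ∀ i : J, (CC z H (i : ℕ)).card ≤ 16 * XX H (i.1 / 16) := by
    intro i
    refine (Finset.card_filter_le _ _).trans (card_QB_le ?_)
    have := hzX i
    omega
  have hbox := box_dec hB J inferInstance (fun i : J => CC z H i)
    (fun i : J => 16 * XX H (i.1 / 16)) κ S₀ hκ hcard hHB h₀O (fun i p hp => by
      obtain ⟨k1, k2, k3⟩ := hCmem i p hp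
      refine ⟨k1, fun h => ?_⟩
      have := h₀ p h
      omega) hdis (by rw [hcJ]; omega)
  have e1 : (((Fintype.piFinset fun i : J => CC z H i).filter
      fun p => Nd S₀ (univ.image p) ∧ G (S₀ ∪ univ.image p)).card) =
      ((RR R X z H k V).filter fun S => ky z H S = (S₀, J) ∧
        (Nd (sm z S) (la z S) ∧ G S)).card := by
    refine Eq.trans (fcc ?_) ((key_bij hH hkey (fun S => Nd (sm z S) (la z S) ∧ G S)).trans
      (fcc fun _ _ => Iff.rfl))
    intro p hp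
    rw [Fintype.mem_piFinset] at hp
    rw [sm_fill hH h₀ hp, la_fill hH h₀ hp]
  have e2 : (((Fintype.piFinset fun i : J => CC z H i).filter
      fun p => Nd S₀ (univ.image p)).card) =
      ((RR R X z H k V).filter fun S => ky z H S = (S₀, J) ∧ Nd (sm z S) (la z S)).card := by
    refine Eq.trans (fcc ?_) ((key_bij hH hkey (fun S => Nd (sm z S) (la z S))).trans
      (fcc fun _ _ => Iff.rfl))
    intro p hp
    rw [Fintype.mem_piFinset] at hp
    rw [sm_fill hH h₀ hp, la_fill hH h₀ hp]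
  rw [← e1, ← e2]
  have e3 : (((Fintype.piFinset fun i : J => CC z H i).filter
      fun p => Nd S₀ (univ.image p)).card : ℝ) ≤
      (((RR R X z H k V).filter fun S => ky z H S = (S₀, J) ∧ True).card : ℝ) := by
    rw [e2]
    have : (RR R X z H k V).filter (fun S => ky z H S = (S₀, J) ∧ Nd (sm z S) (la z S)) ⊆
        (RR R X z H k V).filter fun S => ky z H S = (S₀, J) ∧ True := by
      intro S hS
      rw [Finset.mem_filter] at hS ⊢
      exact ⟨hS.1, hS.2.1, trivial⟩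
    exact_mod_cast Finset.card_le_card this
  refine hbox.trans ?_
  have hr : (2 : ℝ) ^ S₀.card / 2 ^ Fintype.card J ≤ (1 / 2 : ℝ) ^ V := by
    rw [hcJ, div_le_iff₀ (by positivity), one_div, inv_pow, inv_mul_eq_div,
      le_div_iff₀ (by positivity), ← pow_add]
    exact pow_le_pow_right₀ (by norm_num) (by omega)
  have hJK : J.card ≤ k := by omega
  have hSK : S₀.card ≤ k := by omega
  obtain ⟨m, hm⟩ : ∃ m : ℕ, m = (prs J).card := ⟨_, rfl⟩
  have hpr : m ≤ k * k := by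
    rw [hm]
    refine (prs_card J).trans ?_
    rw [hcJ]
    exact Nat.mul_le_mul hJK hJK
  rw [← hm]
  have hN0 : (0 : ℝ) < ((∏ p ∈ S₀, nrm p : ℕ) : ℝ) := by
    exact_mod_cast Finset.prod_pos fun p hp => nrm_one_le (h₀O p hp)
  have hprod : ∏ j : J, ((16 * XX H (j.1 / 16) : ℕ) : ℝ) ≤
      3 ^ (3 * k) * (X * (1 / ((∏ p ∈ S₀, nrm p : ℕ) : ℝ))) := by
    have h5 : ∏ j : J, ((16 * XX H (j.1 / 16) : ℕ) : ℝ) =
        16 ^ J.card * ((∏ i ∈ J, XX H (i / 16) : ℕ) : ℝ) := by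
      rw [← Finset.prod_coe_sort J (fun i => XX H (i / 16))]
      push_cast
      rw [Finset.prod_mul_distrib, Finset.prod_const, Finset.card_univ, hcJ]
    have h6 : ((∏ i ∈ J, XX H (i / 16) : ℕ) : ℝ) ≤ X * (1 / ((∏ p ∈ S₀, nrm p : ℕ) : ℝ)) := by
      rw [mul_one_div, le_div_iff₀ hN0, mul_comm]
      exact_mod_cast c5
    have h7 : (16 : ℝ) ^ J.card ≤ 3 ^ (3 * k) := by
      calc (16 : ℝ) ^ J.card ≤ 27 ^ J.card := pow_le_pow_left₀ (by norm_num) (by norm_num) _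
        _ = 3 ^ (3 * J.card) := by rw [pow_mul]; norm_num
        _ ≤ 3 ^ (3 * k) := pow_le_pow_right₀ (by norm_num) (by omega)
    rw [h5]
    gcongr
  have hpw : (2 : ℝ) ^ (S₀.card * Fintype.card J + m) * 3 ^ (3 * k) ≤ 3 ^ (9 * k ^ 2) := by
    refine (mul_le_mul_of_nonneg_right (pow_le_pow_left₀ (by norm_num) (by norm_num : (2 : ℝ) ≤ 3) _)
      (by positivity)).trans ?_
    rw [← pow_add]
    apply pow_le_pow_right₀ (by norm_num)
    rw [hcJ]
    have h5 : S₀.card * J.card ≤ k * k := Nat.mul_le_mul hSK hJK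
    have h6 : k ≤ k * k := by
      rcases Nat.eq_zero_or_pos k with h | h
      · rw [h]
      · exact Nat.le_mul_of_pos_left k h
    nlinarith
  refine add_le_add ?_ ?_
  · gcongr
  · have hX1 : (0 : ℝ) ≤ X * (1 / ((∏ p ∈ S₀, nrm p : ℕ) : ℝ)) := by positivity
    calc (2 : ℝ) ^ (S₀.card * Fintype.card J + m) *
        (κ * ∏ j : J, ((16 * XX H (j.1 / 16) : ℕ) : ℝ)) ≤
        2 ^ (S₀.card * Fintype.card J + m) *
          (κ * (3 ^ (3 * k) * (X * (1 / ((∏ p ∈ S₀, nrm p : ℕ) : ℝ))))) := by gcongr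
      _ = (2 ^ (S₀.card * Fintype.card J + m) * 3 ^ (3 * k)) *
          (κ * (X * (1 / ((∏ p ∈ S₀, nrm p : ℕ) : ℝ)))) := by ring
      _ ≤ 3 ^ (9 * k ^ 2) * (κ * (X * (1 / ((∏ p ∈ S₀, nrm p : ℕ) : ℝ)))) := by gcongr
      _ = _ := by ring

end Pool.Agent.H691.GZ.KEY
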