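import Pool.Agent.Run7.h691.GZ.NS
import Pool.Agent.Y699.Sqf

/-!
# GZ-SQ: the number of squarefree Gaussian integers in a periodic set
-/

set_option autoImplicit false

open scoped Classical

namespace Pool.Agent.H691.GZ.SQ

open Finset
open H385 (ZI nrm)
open Pool.Agent.Y699
open Pool.Agent.H304R2.EC.A1 (prim prim_mul prim_cancel prim_one prim_ne_zero prim_norm_odd)

/-- the number of residues -/
noncomputable def res (m : ℕ) (A : ZI → Prop) : ℕ :=
  ((range m ×ˢ range m).filter fun p : ℕ × ℕ => A ⟨p.1, p.2⟩).card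

/-- periodic -/
def Per (m : ℕ) (A : ZI → Prop) : Prop := ∀ x y : ZI, (m : ZI) ∣ x - y → (A x ↔ A y)

theorem sum_ZB (V : ℕ) (f : ZI → ℝ) :
    ∑ x ∈ ZB V, f x = ∑ p ∈ Lat.disc V, f ⟨p.1, p.2⟩ := by
  unfold ZB
  rw [sum_map]
  rfl

theorem per_count {m : ℕ} (hm : 0 < m) {A : ZI → Prop} (hA : Per m A) (V : ℕ) :
    |(((ZB V).filter A).card : ℝ) - (res m A : ℝ) / (m : ℝ) ^ 2 * ((ZB V).card : ℝ)| ≤
      3 * m * (2 * Real.sqrt V + 1) := by
  have hm0 : (0 : ℝ) < m := by exact_mod_cast hm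
  set c : ℝ := (res m A : ℝ) / (m : ℝ) ^ 2 with hc
  have hc0 : 0 ≤ c := by positivity
  have hc1 : c ≤ 1 := by
    rw [hc, div_le_one (by positivity)]
    have h1 : res m A ≤ m * m := by
      unfold res
      refine (card_filter_le _ _).trans ?_
      rw [card_product, card_range]
    have h2 : (res m A : ℝ) ≤ ((m * m : ℕ) : ℝ) := by exact_mod_cast h1
    push_cast at h2
    rw [sq]
    exact h2
  have h1 := Lat.disc_bound (f := fun x y => (if A ⟨x, y⟩ then (1 : ℝ) else 0) - c) (N := m) hm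
    (fun x y => by
      have e : A ⟨x + m, y⟩ ↔ A ⟨x, y⟩ := by
        apply hA
        refine ⟨1, ?_⟩
        apply Zsqrtd.ext <;> simp
      simp only [e])
    (fun x y => by
      have e : A ⟨x, y + m⟩ ↔ A ⟨x, y⟩ := by
        apply hA
        refine ⟨⟨0, 1⟩, ?_⟩
        apply Zsqrtd.ext <;> simp
      simp only [e])
    (by
      simp only [sum_sub_distrib, sum_const, card_range, nsmul_eq_mul]
      have e : ∑ i ∈ range m, ∑ j ∈ range m, (if A ⟨(i : ℤ), (j : ℤ)⟩ then (1 : ℝ) else 0) =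
          res m A := by
        unfold res
        rw [← sum_product' (range m) (range m) (fun i j : ℕ =>
          (if A ⟨(i : ℤ), (j : ℤ)⟩ then (1 : ℝ) else 0)), ← sum_filter, sum_const, nsmul_eq_mul,
          mul_one]
      rw [e, hc]
      field_simp
      ring)
    (fun x y => by
      rw [abs_le]
      split_ifs <;> constructor <;> linarith) V
  have e1 : ∑ p ∈ Lat.disc V, ((if A ⟨p.1, p.2⟩ then (1 : ℝ) else 0) - c) =
      (((ZB V).filter A).card : ℝ) - c * ((ZB V).card : ℝ) := by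
    rw [← sum_ZB V (fun x => (if A x then (1 : ℝ) else 0) - c), sum_sub_distrib, sum_const,
      nsmul_eq_mul, ← sum_filter, sum_const, nsmul_eq_mul, mul_one]
    ring
  rw [← e1]
  exact h1

end Pool.Agent.H691.GZ.SQ
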