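import Pool.Agent.Run7.h691.GZ.Sq1

/-!
# GZ-SQ: the sieve
-/

set_option autoImplicit false

open scoped Classical

namespace Pool.Agent.H691.GZ.SQ

open Finset
open H385 (ZI nrm)
open Pool.Agent.Y699
open Pool.Agent.H304R2.EC.A1 (prim prim_mul prim_cancel prim_one prim_ne_zero prim_norm_odd)

/-- the sign of the number of prime factors -/
noncomputable def mu (t : ZI) : ℝ := (-1) ^ (PD t).card

theorem abs_mu (t : ZI) : |mu t| = 1 := by
  unfold mu
  rw [abs_pow, abs_neg, abs_one, one_pow]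

theorem sqf_iff {D : ZI} (hD : D ≠ 0) (ho : D.norm % 2 = 1) :
    ((PD D).filter fun π => π * π ∣ D) = ∅ ↔ Squarefree D := by
  constructor
  · intro h
    by_contra hsq
    rw [Squarefree] at hsq
    push Not at hsq
    obtain ⟨x, hx, hxu⟩ := hsq
    have hx0 : x ≠ 0 := by
      rintro rfl
      rw [zero_mul, zero_dvd_iff] at hx
      exact hD hx
    obtain ⟨ρ, hρ, hρx⟩ := WfDvdMonoid.exists_irreducible_factor hxu hx0
    have hρ' : Prime ρ := irreducible_iff_prime.1 hρ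
    have hρm : ρ * ρ ∣ D := (mul_dvd_mul hρx hρx).trans hx
    obtain ⟨π, hπ, hass⟩ := exists_PP hρ' (odd_of_dvd ((dvd_mul_right _ _).trans hρm) ho)
    have hπm : π * π ∣ D := (mul_dvd_mul hass.dvd hass.dvd).trans hρm
    have h1 : π ∈ (PD D).filter fun π => π * π ∣ D :=
      mem_filter.2 ⟨(mem_PD hD).2 ⟨hπ, (dvd_mul_right _ _).trans hπm⟩, hπm⟩
    rw [h] at h1
    exact absurd h1 (notMem_empty _)
  · intro h
    rw [eq_empty_iff_forall_notMem]
    intro π hπ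
    rw [mem_filter, mem_PD hD] at hπ
    exact hπ.1.1.pr.not_isUnit (h π hπ.2)

theorem mobius {D : ZI} (hD : D ≠ 0) (ho : D.norm % 2 = 1) {s : ℕ} (hs : nrm D ≤ s * s) :
    ∑ t ∈ (SB s).filter (fun t => t * t ∣ D), mu t = if Squarefree D then 1 else 0 := by
  obtain ⟨P, hP⟩ : ∃ P, P = (PD D).filter fun π => π * π ∣ D := ⟨_, rfl⟩
  have hPP : ∀ π ∈ P, PP π ∧ π * π ∣ D := by
    intro π hπ
    rw [hP, mem_filter, mem_PD hD] at hπ
    exact ⟨hπ.1.1, hπ.2⟩
  have h1 : ∑ t ∈ (SB s).filter (fun t => t * t ∣ D), mu t = ∑ S ∈ P.powerset, (-1 : ℝ) ^ S.card := by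
    refine sum_bij' (fun t _ => PD t) (fun S _ => ∏ π ∈ S, π) ?_ ?_ ?_ ?_ ?_
    · intro t ht
      rw [mem_filter, mem_SB] at ht
      rw [mem_powerset]
      intro π hπ
      have h2 := (mem_PD ht.1.2.ne).1 hπ
      have h3 : π * π ∣ D := (mul_dvd_mul h2.2 h2.2).trans ht.2
      rw [hP, mem_filter, mem_PD hD]
      exact ⟨⟨h2.1, (dvd_mul_right _ _).trans h3⟩, h3⟩
    · intro S hS
      rw [mem_powerset] at hS
      have h2 := PS_prod (S := S) fun π hπ => (hPP π (hS hπ)).1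
      have h3 : (∏ π ∈ S, π) * (∏ π ∈ S, π) ∣ D := by
        rw [← prod_mul_distrib]
        refine prod_dvd_of_coprime ?_ fun π hπ => (hPP π (hS hπ)).2
        intro π hπ ρ hρ hne
        have h4 := (hPP π (hS hπ)).1.cop (hPP ρ (hS hρ)).1 hne
        exact (h4.mul_left h4).mul_right (h4.mul_left h4)
      rw [mem_filter, mem_SB]
      refine ⟨⟨?_, h2.1⟩, h3⟩
      have h4 : nrm ((∏ π ∈ S, π) * ∏ π ∈ S, π) ≤ nrm D := norm_le_of_dvd hD h3
      rw [nrm_mul] at h4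
      by_contra h5
      push Not at h5
      have h6 := Nat.mul_lt_mul'' h5 h5
      omega
    · intro t ht
      rw [mem_filter, mem_SB] at ht
      exact ht.1.2.prod
    · intro S hS
      rw [mem_powerset] at hS
      exact (PS_prod (S := S) fun π hπ => (hPP π (hS hπ)).1).2
    · intro t ht
      rfl
  rw [h1]
  have h2 := Finset.sum_powerset_neg_one_pow_card (x := P)
  have h3 : ∑ S ∈ P.powerset, (-1 : ℝ) ^ S.card = ((∑ S ∈ P.powerset, (-1 : ℤ) ^ S.card : ℤ) : ℝ) := by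
    push_cast
    rfl
  rw [h3, h2, hP]
  by_cases h : Squarefree D
  · rw [if_pos h, if_pos ((sqf_iff hD ho).2 h), Int.cast_one]
  · rw [if_neg h, if_neg fun h' => h ((sqf_iff hD ho).1 h'), Int.cast_zero]

theorem per_mul {m : ℕ} {A : ZI → Prop} (hA : Per m A) (t : ZI) : Per m fun x => A (t * t * x) := by
  intro x y h
  apply hA
  obtain ⟨c, hc⟩ := h
  exact ⟨t * t * c, by rw [← mul_sub, hc]; ring⟩

theorem mult_card {A : ZI → Prop} {V : ℕ} {t : ZI} (ht : t ≠ 0) :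
    ((ZB V).filter fun D => A D ∧ t * t ∣ D).card =
      ((ZB (V / (nrm t * nrm t))).filter fun x => A (t * t * x)).card := by
  have hn : 0 < nrm t * nrm t := Nat.mul_pos (nrm_pos' ht) (nrm_pos' ht)
  symm
  refine card_bij (fun x _ => t * t * x) ?_ ?_ ?_
  · intro x hx
    rw [mem_filter, mem_ZB] at hx
    rw [mem_filter, mem_ZB]
    refine ⟨?_, hx.2, dvd_mul_right _ _⟩
    rw [nrm_mul, nrm_mul, mul_comm]
    exact (Nat.le_div_iff_mul_le hn).1 hx.1
  · intro x _ y _ h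
    exact mul_left_cancel₀ (mul_ne_zero ht ht) h
  · intro D hD
    rw [mem_filter, mem_ZB] at hD
    obtain ⟨x, rfl⟩ := hD.2.2
    refine ⟨x, ?_, rfl⟩
    rw [mem_filter, mem_ZB]
    refine ⟨?_, hD.2.1⟩
    rw [Nat.le_div_iff_mul_le hn]
    have h1 := hD.1
    rw [nrm_mul, nrm_mul, mul_comm] at h1
    exact h1

/-- the main term -/
noncomputable def MM (V s : ℕ) : ℝ :=
  ∑ t ∈ SB s, mu t * ((ZB (V / (nrm t * nrm t))).card : ℝ)

theorem sqrt_div_le (V n : ℕ) (hn : 0 < n) :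
    Real.sqrt ((V / (n * n) : ℕ) : ℝ) ≤ Real.sqrt V * (1 / n) := by
  have hn0 : (0 : ℝ) < n := by exact_mod_cast hn
  have h1 : ((V / (n * n) : ℕ) : ℝ) ≤ (V : ℝ) / (n : ℝ) ^ 2 := by
    have := @Nat.cast_div_le ℝ _ _ _ V (n * n)
    push_cast at this
    rw [sq]
    exact this
  refine (Real.sqrt_le_sqrt h1).trans (le_of_eq ?_)
  rw [Real.sqrt_div (Nat.cast_nonneg V), Real.sqrt_sq hn0.le]
  ring

theorem sum_err {V s : ℕ} (hs1 : 1 ≤ s) (c : ℝ) (hc : 0 ≤ c) :
    ∑ t ∈ SB s, c * (2 * Real.sqrt ((V / (nrm t * nrm t) : ℕ) : ℝ) + 1) ≤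
      c * (36 * Real.sqrt V * lg s + 9 * s) := by
  have h1 : ∀ t ∈ SB s, c * (2 * Real.sqrt ((V / (nrm t * nrm t) : ℕ) : ℝ) + 1) ≤
      c * (2 * Real.sqrt V) * (1 / nrm t) + c := by
    intro t ht
    rw [mem_SB] at ht
    have h2 := sqrt_div_le V (nrm t) (nrm_pos' ht.2.ne)
    have h3 := mul_le_mul_of_nonneg_left h2 hc
    nlinarith
  refine (sum_le_sum h1).trans ?_
  rw [sum_add_distrib, ← mul_sum, sum_const, nsmul_eq_mul]
  have h2 := hsum_SB s
  have h3 := card_SB_le hs1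
  have h4 := mul_le_mul_of_nonneg_left h2 (show 0 ≤ c * (2 * Real.sqrt V) by positivity)
  have h5 := mul_le_mul_of_nonneg_right h3 hc
  nlinarith

theorem count_sq {m : ℕ} (hm : 0 < m) {A : ZI → Prop} (hA : Per m A)
    (hodd : ∀ x, A x → x.norm % 2 = 1) {a : ℕ}
    (ha : ∀ t, prim t → res m (fun x => A (t * t * x)) = a) {V s : ℕ} (hs : V ≤ s * s)
    (hs1 : 1 ≤ s) :
    |(((ZB V).filter fun D => A D ∧ Squarefree D).card : ℝ) - (a : ℝ) / (m : ℝ) ^ 2 * MM V s| ≤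
      3 * m * (36 * Real.sqrt V * lg s + 9 * s) := by
  have hne : ∀ x, A x → x ≠ 0 := by
    rintro x hx rfl
    have := hodd 0 hx
    simp at this
  have h1 : (((ZB V).filter fun D => A D ∧ Squarefree D).card : ℝ) =
      ∑ t ∈ SB s, mu t * (((ZB V).filter fun D => A D ∧ t * t ∣ D).card : ℝ) := by
    have e1 : (((ZB V).filter fun D => A D ∧ Squarefree D).card : ℝ) =
        ∑ D ∈ (ZB V).filter A, ∑ t ∈ (SB s).filter (fun t => t * t ∣ D), mu t := by
      rw [← filter_filter, card_eq_sum_ones, sum_filter]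
      push_cast
      refine sum_congr rfl fun D hD => ?_
      rw [mem_filter, mem_ZB] at hD
      rw [mobius (hne D hD.2) (hodd D hD.2) (hD.1.trans hs)]
    rw [e1]
    have e2 : ∀ D ∈ (ZB V).filter A, ∑ t ∈ (SB s).filter (fun t => t * t ∣ D), mu t =
        ∑ t ∈ SB s, if t * t ∣ D then mu t else 0 := fun D _ => sum_filter _ _
    rw [sum_congr rfl e2, sum_comm]
    refine sum_congr rfl fun t _ => ?_
    rw [← sum_filter, sum_const, nsmul_eq_mul, filter_filter, mul_comm]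
  have h2 : (a : ℝ) / (m : ℝ) ^ 2 * MM V s =
      ∑ t ∈ SB s, mu t * ((a : ℝ) / (m : ℝ) ^ 2 * ((ZB (V / (nrm t * nrm t))).card : ℝ)) := by
    unfold MM
    rw [mul_sum]
    exact sum_congr rfl fun t _ => by ring
  rw [h1, h2, ← sum_sub_distrib]
  refine (abs_sum_le_sum_abs _ _).trans ?_
  refine le_trans (sum_le_sum fun t ht => ?_) (sum_err (V := V) hs1 (3 * m) (by positivity))
  rw [mem_SB] at ht
  rw [← mul_sub, abs_mul, abs_mu, one_mul, mult_card ht.2.ne]
  have h3 := per_count hm (per_mul hA t) (V / (nrm t * nrm t))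
  rw [ha t ht.2.prm] at h3
  exact h3

end Pool.Agent.H691.GZ.SQ
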