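import Pool.Agent.Run7.h691.GZ.Sq2

/-!
# GZ-SQ: the share of a class among all the squarefree Gaussian integers
-/

set_option autoImplicit false

open scoped Classical

namespace Pool.Agent.H691.GZ.SQ

open Finset
open H385 (ZI nrm)
open Pool.Agent.Y699
open Pool.Agent.H304R2.EC.A1 (prim prim_mul prim_cancel prim_one prim_ne_zero prim_norm_odd)

theorem nrm_int (x : ZI) : ((nrm x : ℕ) : ℤ) = x.norm := GaussianInt.abs_natCast_norm x

theorem norm_sq (x : ZI) : x.norm = x.re * x.re + x.im * x.im := by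
  rw [Zsqrtd.norm_def]; ring

/-- the number of residues is computable -/
theorem res_eq {m : ℕ} {A : ZI → Prop} (b : ℤ → ℤ → Bool)
    (h : ∀ x y : ℤ, A ⟨x, y⟩ ↔ b x y = true) :
    res m A = ((range m ×ˢ range m).filter fun p : ℕ × ℕ => b p.1 p.2 = true).card := by
  unfold res
  congr 1
  ext p
  rw [mem_filter, mem_filter, h]

/-- odd -/
def Od (x : ZI) : Prop := x.norm % 2 = 1

theorem per_od : Per 2 Od := by
  intro x y h
  obtain ⟨c, hc⟩ := h
  have h1 : x.re = y.re + 2 * c.re := by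
    have := congrArg Zsqrtd.re hc
    simp at this
    linarith
  have h2 : x.im = y.im + 2 * c.im := by
    have := congrArg Zsqrtd.im hc
    simp at this
    linarith
  unfold Od
  have h3 : x.norm = y.norm + 2 * (2 * y.re * c.re + 2 * c.re * c.re + 2 * y.im * c.im +
      2 * c.im * c.im) := by
    rw [norm_sq, norm_sq, h1, h2]
    ring
  rw [h3]
  omega

theorem od_mul {t : ZI} (ht : prim t) (x : ZI) : Od (t * t * x) ↔ Od x := by
  unfold Od
  rw [Zsqrtd.norm_mul, Zsqrtd.norm_mul, Int.mul_emod, Int.mul_emod t.norm, prim_norm_odd ht]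
  norm_num

theorem res_od (t : ZI) (ht : prim t) : res 2 (fun x => Od (t * t * x)) = 2 := by
  have h1 : res 2 (fun x => Od (t * t * x)) = res 2 Od := by
    unfold res
    congr 1
    exact filter_congr fun p _ => od_mul ht _
  rw [h1, res_eq (fun x y => decide ((x * x + y * y) % 2 = 1)) (fun x y => by
    unfold Od
    rw [norm_sq, decide_eq_true_iff])]
  decide

/-- even -/
def Ev (x : ZI) : Prop := ¬ Od x

theorem res_ev : res 2 Ev = 2 := by
  rw [res_eq (fun x y => decide (¬ (x * x + y * y) % 2 = 1)) (fun x y => by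
    unfold Ev Od
    rw [norm_sq, decide_eq_true_iff])]
  decide

theorem per_ev : Per 2 Ev := fun x y h => not_congr (per_od x y h)

/-- `1 + i` -/
def al : ZI := ⟨1, 1⟩

theorem nrm_al (x : ZI) : nrm (al * x) = 2 * nrm x := by
  rw [nrm_mul]
  rfl

theorem ev_iff (x : ZI) : ¬ Od x ↔ al ∣ x := by
  unfold Od
  constructor
  · intro h
    have h1 : (x.re + x.im) % 2 = 0 := by
      rw [norm_sq] at h
      have h2 : (x.re * x.re + x.im * x.im) % 2 = (x.re + x.im) % 2 := by
        rcases Int.emod_two_eq_zero_or_one x.re with h3 | h3 <;>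
        rcases Int.emod_two_eq_zero_or_one x.im with h4 | h4 <;>
        simp [Int.add_emod, Int.mul_emod, h3, h4]
      omega
    refine ⟨⟨(x.re + x.im) / 2, (x.im - x.re) / 2⟩, ?_⟩
    apply Zsqrtd.ext
    · simp [al]
      omega
    · simp [al]
      omega
  · rintro ⟨c, rfl⟩
    rw [Zsqrtd.norm_mul]
    have : al.norm = 2 := by decide
    rw [this]
    omega

theorem half_ZB (V : ℕ) : |((ZB (V / 2)).card : ℝ) - 1 / 2 * ((ZB V).card : ℝ)| ≤
    6 * (2 * Real.sqrt V + 1) := by
  have h1 := per_count (m := 2) (by norm_num) per_ev V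
  rw [res_ev] at h1
  have h2 : ((ZB V).filter Ev).card = (ZB (V / 2)).card := by
    symm
    refine card_bij (fun x _ => al * x) ?_ ?_ ?_
    · intro x hx
      rw [mem_ZB] at hx
      rw [mem_filter, mem_ZB, nrm_al]
      exact ⟨by omega, (ev_iff _).2 (dvd_mul_right _ _)⟩
    · intro x _ y _ h
      exact mul_left_cancel₀ (by decide : al ≠ 0) h
    · intro x hx
      rw [mem_filter, mem_ZB] at hx
      obtain ⟨c, rfl⟩ := (ev_iff _).1 hx.2
      refine ⟨c, ?_, rfl⟩
      have := hx.1
      rw [nrm_al] at this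
      rw [mem_ZB]
      omega
  rw [h2] at h1
  norm_num at h1 ⊢
  exact h1

theorem MM_half {X s : ℕ} (hs1 : 1 ≤ s) :
    |MM (X / 2) s - 1 / 2 * MM X s| ≤ 6 * (36 * Real.sqrt X * lg s + 9 * s) := by
  unfold MM
  rw [mul_sum, ← sum_sub_distrib]
  refine (abs_sum_le_sum_abs _ _).trans ?_
  refine le_trans (sum_le_sum fun t ht => ?_) (sum_err (V := X) hs1 6 (by norm_num))
  have e1 : X / 2 / (nrm t * nrm t) = X / (nrm t * nrm t) / 2 := by
    rw [Nat.div_div_eq_div_mul, Nat.div_div_eq_div_mul, mul_comm]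
  have e2 : mu t * ((ZB (X / 2 / (nrm t * nrm t))).card : ℝ) -
      1 / 2 * (mu t * ((ZB (X / (nrm t * nrm t))).card : ℝ)) =
      mu t * (((ZB (X / (nrm t * nrm t) / 2)).card : ℝ) -
        1 / 2 * ((ZB (X / (nrm t * nrm t))).card : ℝ)) := by
    rw [e1]; ring
  rw [e2, abs_mul, abs_mu, one_mul]
  exact half_ZB _

/-- all the squarefree Gaussian integers of norm at most `X` -/
noncomputable def TT (X : ℕ) : Finset ZI := (ZB X).filter fun D => Squarefree D

/-- the class `R` -/
def AR (R : Finset ℕ) (x : ZI) : Prop := prim x ∧ nrm x % 16 ∈ R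

noncomputable def FR (R : Finset ℕ) (X : ℕ) : Finset ZI :=
  (ZB X).filter fun D => AR R D ∧ Squarefree D

theorem TT_le (X : ℕ) : (TT X).card ≤ ((ZB X).filter fun D => Od D ∧ Squarefree D).card +
    ((ZB (X / 2)).filter fun D => Od D ∧ Squarefree D).card := by
  have h1 : TT X ⊆ ((ZB X).filter fun D => Od D ∧ Squarefree D) ∪
      ((ZB (X / 2)).filter fun D => Od D ∧ Squarefree D).image fun x => al * x := by
    intro D hD
    unfold TT at hD
    rw [mem_filter, mem_ZB] at hD
    rw [mem_union]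
    by_cases ho : Od D
    · left
      rw [mem_filter, mem_ZB]
      exact ⟨hD.1, ho, hD.2⟩
    · right
      obtain ⟨c, rfl⟩ := (ev_iff _).1 ho
      rw [mem_image]
      refine ⟨c, ?_, rfl⟩
      rw [mem_filter, mem_ZB]
      have h2 := hD.1
      rw [nrm_al] at h2
      refine ⟨by omega, ?_, hD.2.squarefree_of_dvd (dvd_mul_left _ _)⟩
      by_contra hc
      obtain ⟨d, rfl⟩ := (ev_iff _).1 hc
      have h3 : al * al ∣ al * (al * d) := ⟨d, by ring⟩
      have h4 := hD.2 al h3
      rw [Zsqrtd.isUnit_iff_norm_isUnit] at h4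
      revert h4
      have : al.norm = 2 := by decide
      rw [this]
      decide
  exact (card_le_card h1).trans ((card_union_le _ _).trans (Nat.add_le_add_left card_image_le _))

theorem TT_up {X s : ℕ} (hs : X ≤ s * s) (hs1 : 1 ≤ s) :
    ((TT X).card : ℝ) ≤ 3 / 4 * MM X s + 15 * (36 * Real.sqrt X * lg s + 9 * s) := by
  have h1 := count_sq (m := 2) (by norm_num) per_od (fun x h => h) res_od hs hs1
  have h2 := count_sq (m := 2) (V := X / 2) (by norm_num) per_od (fun x h => h) res_od
    ((Nat.div_le_self X 2).trans hs) hs1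
  have h3 := MM_half (X := X) hs1
  have h4 : ((TT X).card : ℝ) ≤ (((ZB X).filter fun D => Od D ∧ Squarefree D).card : ℝ) +
      (((ZB (X / 2)).filter fun D => Od D ∧ Squarefree D).card : ℝ) := by
    exact_mod_cast TT_le X
  have h5 : Real.sqrt ((X / 2 : ℕ) : ℝ) ≤ Real.sqrt X := by
    apply Real.sqrt_le_sqrt
    exact_mod_cast Nat.div_le_self X 2
  have h6 : Real.sqrt ((X / 2 : ℕ) : ℝ) * lg s ≤ Real.sqrt X * lg s :=
    mul_le_mul_of_nonneg_right h5 (lg_pos s).le
  rw [abs_le] at h1 h2 h3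
  have k1 := h1.2
  have k2 := h2.2
  have k3 := h3.2
  norm_num at k1 k2 k3 ⊢
  nlinarith

end Pool.Agent.H691.GZ.SQ
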