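import Mathlib
import Pool.Agent.Y703.CX.Stm
import Pool.Agent.Y703.CQ.Stm
import Pool.Agent.Y699.Hal2
import Pool.Agent.Y699.Crit

/-!
# Project GZ (helper691): the exact proportion over `ℚ(i)`

`D` runs over the squarefree primary elements of `ℤ[i]` whose norm lies in a set `R` of residues
modulo `16`. The proportion of those for which the Laplacian of the symmetric matrix of the
quadratic residue symbols of the prime divisors has only the constants in its kernel tends to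
`∏_{i ≥ 0} (1 - 2^{-(2i+1)}) = 0.4194...`. Statements of the parts, after project XK (helper703) over
`ℤ[ω]`. Tools: the library `Pool/Agent/Y699` of helper699.
-/

set_option autoImplicit false
set_option linter.unusedVariables false

open scoped Classical

namespace Pool.Agent.H691.GZ

open Finset
open H385 (ZI nrm)
open Pool.Agent.Y699 (PP PS qr QB PD)
open Pool.Agent.H304R2.EC.A1 (prim)
open Pool.Agent.Y703.CX (jj XX eL zz kk)
open Pool.Agent.Y703.CQ (c2)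

/-- the quadratic symbol, additively -/
noncomputable def qa (π ρ : ZI) : ZMod 2 := if qr π ρ = -1 then 1 else 0

/-- the sign -/
noncomputable def sg (a : ZMod 2) : ℝ := if a = 0 then 1 else -1

/-- the kernel of the Laplacian of the quadratic residue symbols -/
def Sol (S : Finset ZI) (v : ZI → ZMod 2) : Prop :=
  ∀ π ∈ S, ∑ ρ ∈ S, qa π ρ * (v ρ - v π) = 0

/-- the good sets: all solutions are constant -/
def Gd (S : Finset ZI) : Prop := ∀ v, Sol S v → ∀ π ∈ S, ∀ ρ ∈ S, v π = v ρ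

/-- the class of the sets of primary primes -/
def Cl (R : Finset ℕ) (S : Finset ZI) : Prop := (∀ π ∈ S, PP π) ∧ (∏ π ∈ S, nrm π) % 16 ∈ R

/-- the sets of the class with norm at most `X` -/
noncomputable def SS (R : Finset ℕ) (X : ℕ) : Finset (Finset ZI) :=
  (QB X).powerset.filter fun S => Cl R S ∧ ∏ π ∈ S, nrm π ≤ X

/-- the class of the elements -/
structure ClsE (R : Finset ℕ) (D : ZI) : Prop where
  ps : PS D
  nm : nrm D % 16 ∈ R

/-- the good elements -/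
structure GoodE (R : Finset ℕ) (D : ZI) : Prop where
  cl : ClsE R D
  ker : ∀ d d' : ZI, prim d → prim d' → D = d * d' → (∀ π ∈ PD d, qr π d' = 1) →
    (∀ π ∈ PD d', qr π d = 1) → d = 1 ∨ d' = 1

/-- the class has positive density. -/
def S_LOW (R : Finset ℕ) : Prop :=
  ∃ (c : ℝ) (X₀ : ℕ), 0 < c ∧ ∀ X : ℕ, X₀ ≤ X → c * X ≤ ((SS R X).card : ℝ)

/-- FINAL: the proportion of the good sets -/
def S_DQ : Prop := ∀ R : Finset ℕ, S_LOW R → Filter.Tendsto
  (fun X : ℕ => (((SS R X).filter Gd).card : ℝ) / ((SS R X).card : ℝ)) Filter.atTop (nhds c2)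

/-- FINAL, in terms of the elements `D`. -/
def S_DEN : Prop := ∀ R : Finset ℕ, S_LOW R → Filter.Tendsto
  (fun X : ℕ => ({D : ZI | nrm D ≤ X ∧ GoodE R D}.ncard : ℝ) /
    ({D : ZI | nrm D ≤ X ∧ ClsE R D}.ncard : ℝ)) Filter.atTop (nhds c2)

/-- GZ-NS: the translation. -/
def S_NS : Prop := S_DQ → S_DEN

/-- GZ-BIL: bilinear sums of quadratic symbols. -/
def S_BIL : Prop := ∃ C : ℝ, 1 ≤ C ∧ ∀ (P Q : Finset ZI) (A B z : ℕ) (c d : ZI → ℝ),
  (∀ π ∈ P, PP π ∧ nrm π ≤ A) → (∀ ρ ∈ Q, PP ρ ∧ nrm ρ ≤ B) → Disjoint P Q →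
  1 ≤ z → z ≤ A → z ≤ B → (∀ π, |c π| ≤ 1) → (∀ ρ, |d ρ| ≤ 1) →
  |∑ π ∈ P, ∑ ρ ∈ Q, c π * d ρ * sg (qa π ρ)| ^ 24 * z ≤ C * ((A : ℝ) * B) ^ 24

/-- the pairs of indices -/
noncomputable def prs (ι : Type) [Fintype ι] [LinearOrder ι] : Finset (ι × ι) :=
  univ.filter fun e => e.1 < e.2

/-- the bilinear hypothesis for a box -/
def HB {ι : Type} (C : ι → Finset ZI) (X : ι → ℕ) (κ : ℝ) : Prop :=
  ∀ i l : ι, i ≠ l → ∀ (c d : ZI → ℝ), (∀ π, |c π| ≤ 1) → (∀ ρ, |d ρ| ≤ 1) →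
    |∑ x ∈ C i, ∑ y ∈ C l, c x * d y * sg (qa x y)| ≤ κ * (X i * X l)

/-- GZ-EQ: equidistribution of the symbols of a tuple. -/
def S_EQ : Prop := ∀ (ι : Type) [Fintype ι] [LinearOrder ι] (C : ι → Finset ZI)
  (X : ι → ℕ) (κ : ℝ), 0 ≤ κ → (∀ i, (C i).card ≤ X i) → HB C X κ →
  ∀ Q : (prs ι → ZMod 2) → Prop,
    |(((Fintype.piFinset C).filter fun p => Q fun e => qa (p e.1.1) (p e.1.2)).card : ℝ) -
      ((univ.filter Q).card : ℝ) / 2 ^ (prs ι).card * ∏ j, ((C j).card : ℝ)| ≤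
    2 ^ (prs ι).card * (κ * ∏ j, (X j : ℝ))

/-- the symmetric matrix with given entries above the diagonal -/
noncomputable def ext {ι : Type} [Fintype ι] [LinearOrder ι] (α : prs ι → ZMod 2) (k l : ι) :
    ZMod 2 :=
  if h : (k, l) ∈ prs ι then α ⟨(k, l), h⟩ else if h' : (l, k) ∈ prs ι then α ⟨(l, k), h'⟩ else 0

/-- all solutions of the block system are constant -/
def GdA {U J : Type} [Fintype U] [Fintype J] (A : U → U → ZMod 2) (B : U → J → ZMod 2)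
    (R : J → J → ZMod 2) : Prop :=
  ∀ (c : U → ZMod 2) (d : J → ZMod 2),
    (∀ u, ∑ v, A u v * (c v - c u) + ∑ l, B u l * (d l - c u) = 0) →
    (∀ k, ∑ u, B u k * (c u - d k) + ∑ l, R k l * (d l - d k) = 0) →
    ∃ t : ZMod 2, (∀ u, c u = t) ∧ ∀ l, d l = t

/-- GZ-LA: the probability that a random symmetric completion is good. -/
def S_LA : Prop := ∀ (U J : Type) [Fintype U] [Fintype J] [LinearOrder J]
  (A : U → U → ZMod 2) (B : U → J → ZMod 2), Fintype.card U < Fintype.card J →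
  (∀ u v, A u v = A v u) →
  (∀ w : U → ZMod 2, (∃ u, w u ≠ 0) → ∃ k, ∑ u, w u * B u k ≠ 0) →
  |((univ.filter fun α : prs J → ZMod 2 => GdA A B (ext α)).card : ℝ) /
      2 ^ (prs J).card - c2| ≤ 2 * (2 ^ Fintype.card U / 2 ^ Fintype.card J)

/-- the labels of the large primes with respect to the small ones are not degenerate -/
def Nd (S₀ S₁ : Finset ZI) : Prop :=
  ∀ v : ZI → ZMod 2, (∃ u ∈ S₀, v u ≠ 0) → ∃ π ∈ S₁, ∑ u ∈ S₀, v u * qa u π ≠ 0

/-- GZ-BOX: the count in a box. -/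
def S_BOX : Prop := S_EQ → S_LA → ∀ (ι : Type) [Fintype ι] [LinearOrder ι]
  (C : ι → Finset ZI) (X : ι → ℕ) (κ : ℝ) (S₀ : Finset ZI), 0 ≤ κ → (∀ i, (C i).card ≤ X i) →
  HB C X κ → (∀ u ∈ S₀, PP u) → (∀ i, ∀ π ∈ C i, PP π ∧ π ∉ S₀) →
  (∀ i l, i ≠ l → Disjoint (C i) (C l)) → S₀.card < Fintype.card ι →
  |(((Fintype.piFinset C).filter fun p => Nd S₀ (univ.image p) ∧ Gd (S₀ ∪ univ.image p)).card : ℝ) -
      c2 * (((Fintype.piFinset C).filter fun p => Nd S₀ (univ.image p)).card : ℝ)| ≤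
    2 * (2 ^ S₀.card / 2 ^ Fintype.card ι) *
      (((Fintype.piFinset C).filter fun p => Nd S₀ (univ.image p)).card : ℝ) +
    2 ^ (S₀.card * Fintype.card ι + (prs ι).card) * (κ * ∏ j, (X j : ℝ))

/-- the small primes of a set -/
noncomputable def sm (z : ℕ) (S : Finset ZI) : Finset ZI := S.filter fun π => nrm π ≤ z

/-- the large primes of a set -/
noncomputable def la (z : ℕ) (S : Finset ZI) : Finset ZI := S.filter fun π => ¬ nrm π ≤ z

/-- the number of the block of a prime -/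
noncomputable def bl (H : ℕ) (π : ZI) : ℕ := jj H (nrm π)

/-- the regular sets -/
noncomputable def RR (R : Finset ℕ) (X z H k V : ℕ) : Finset (Finset ZI) :=
  (SS R X).filter fun S => Set.InjOn (bl H) (la z S : Set ZI) ∧ S.card ≤ k ∧
    (∏ π ∈ sm z S, nrm π) * ∏ π ∈ la z S, XX H (bl H π) ≤ X ∧
    (sm z S).card + V < (la z S).card

/-- GZ-KEY: the sum over the boxes. -/
def S_KEY : Prop := S_BIL → S_EQ → S_LA → S_BOX → ∃ C : ℝ, 1 ≤ C ∧
  ∀ (R : Finset ℕ) (X z H k V N : ℕ) (κ : ℝ), 1 ≤ X → 1 ≤ H → 1 ≤ z → 0 ≤ κ → C ≤ κ ^ 24 * z →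
  (H : ℝ) * Real.log X < N →
  |(((RR R X z H k V).filter fun S => Nd (sm z S) (la z S) ∧ Gd S).card : ℝ) -
      c2 * (((RR R X z H k V).filter fun S => Nd (sm z S) (la z S)).card : ℝ)| ≤
    2 * (1 / 2 : ℝ) ^ V * ((RR R X z H k V).card : ℝ) +
    (16 * N + 16 : ℝ) ^ k * (3 ^ (9 * k ^ 2 + 9) * κ) * (X * (1 + Real.log X))

/-- GZ-CNT: sets with many primes, sets near the boundary, sets with two primes in a block. -/
structure CntP (R : Finset ℕ) (C : ℝ) : Prop where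
  one : 1 ≤ C
  all : ∀ X : ℕ, 1 ≤ X → ((SS R X).card : ℝ) ≤ C * X
  many : ∀ X k : ℕ, 1 ≤ X → (((SS R X).filter fun S => k < S.card).card : ℝ) * 2 ^ k ≤
    C * (X * (1 + Real.log X))
  cut : ∀ X z H k : ℕ, 1 ≤ X → 1 ≤ H → 1 ≤ k → (((SS R X).filter fun S => S.card ≤ k ∧
    X < (∏ π ∈ sm z S, nrm π) * ∏ π ∈ la z S, XX H (bl H π)).card : ℝ) ≤
      C * (X * (1 + Real.log X)) * (k / H) + C * X * Real.exp (-(Real.log X) / k)
  coll : ∀ X z H : ℕ, 1 ≤ X → 1 ≤ z → 1 ≤ H → (((SS R X).filter fun S =>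
    ¬ Set.InjOn (bl H) (la z S : Set ZI)).card : ℝ) ≤ C * (X * (1 + Real.log X)) / H + C * X / z

/-- GZ-CNT -/
def S_CNT : Prop := ∀ R : Finset ℕ, ∃ C : ℝ, CntP R C

/-- GZ-BAD: few sets have degenerate labels. -/
def S_BAD : Prop := ∀ (R : Finset ℕ) (ε : ℝ), 0 < ε → ∃ X₀ : ℕ, ∀ X : ℕ, X₀ ≤ X →
  (((SS R X).filter fun S => S.card ≤ kk X ∧ ¬ Nd (sm (zz X) S) (la (zz X) S)).card : ℝ) ≤ ε * X

/-- GZ-FEW: few sets have few large primes. -/
def S_FEW : Prop := ∀ (R : Finset ℕ) (V : ℕ) (ε : ℝ), 0 < ε → ∃ X₀ : ℕ, ∀ X : ℕ, X₀ ≤ X →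
  (((SS R X).filter fun S => S.card ≤ kk X ∧ (la (zz X) S).card ≤ (sm (zz X) S).card + V).card : ℝ) ≤
    ε * X

end Pool.Agent.H691.GZ
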